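import Mathlib

/-!
# Products of divisor classes are effective
-/

set_option autoImplicit false

namespace Pool.Agent.Helper60.GTC

open Module

section General

variable {W : Type*} [AddCommGroup W] [Module ℂ W]

lemma mul_mem_ext {a b : ℕ} {x y : ExteriorAlgebra ℂ W} (hx : x ∈ ⋀[ℂ]^a W)
    (hy : y ∈ ⋀[ℂ]^b W) : x * y ∈ ⋀[ℂ]^(a + b) W := by
  have h := Submodule.mul_mem_mul hx hy
  rwa [← pow_add] at h

lemma div_le_aux (ν : ℕ) : ∀ (j : ℕ) (d : Fin ν → ExteriorAlgebra ℂ W)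
    (_ : ∀ k, d k ∈ ⋀[ℂ]^2 W) (w : ExteriorAlgebra ℂ W) (_ : w ∈ ⋀[ℂ]^j W),
    (List.ofFn d).prod * w ∈ ⋀[ℂ]^(2 * ν + j) W := by
  induction ν with
  | zero =>
    intro j d _ w hw
    simpa using hw
  | succ ν ih =>
    intro j d hd w hw
    rw [List.ofFn_succ, List.prod_cons, mul_assoc]
    have h := mul_mem_ext (hd 0) (ih j (fun k => d k.succ) (fun k => hd k.succ) w hw)
    have e : 2 + (2 * ν + j) = 2 * (ν + 1) + j := by ring
    rwa [e] at h

theorem div_le (i ν : ℕ) (h : 2 * ν ≤ i) (d : Fin ν → ExteriorAlgebra ℂ W)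
    (hd : ∀ k, d k ∈ ⋀[ℂ]^2 W) (w : ExteriorAlgebra ℂ W) (hw : w ∈ ⋀[ℂ]^(i - 2 * ν) W) :
    (List.ofFn d).prod * w ∈ ⋀[ℂ]^i W := by
  have h1 := div_le_aux ν (i - 2 * ν) d hd w hw
  rwa [Nat.add_sub_cancel' h] at h1

theorem div_map (Φ : W →ₗ[ℂ] W) (q : ℂ) (ν : ℕ) (d : Fin ν → ExteriorAlgebra ℂ W)
    (hd : ∀ k, ExteriorAlgebra.map Φ (d k) = q • d k) (w : ExteriorAlgebra ℂ W) :
    ExteriorAlgebra.map Φ ((List.ofFn d).prod * w) =
      q ^ ν • ((List.ofFn d).prod * ExteriorAlgebra.map Φ w) := by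
  induction ν with
  | zero => simp
  | succ ν ih =>
    rw [List.ofFn_succ, List.prod_cons, mul_assoc, map_mul, hd,
      ih (fun k => d k.succ) (fun k => hd k.succ), smul_mul_assoc, mul_smul_comm, smul_smul,
      mul_assoc, pow_succ']

end General

section Basis

variable {W : Type*} [AddCommGroup W] [Module ℂ W] {I : Type*} [LinearOrder I]
  (b : Basis I ℂ W)

lemma map_basis (Φ : W →ₗ[ℂ] W) (lam : I → ℂ) (hb : ∀ i, Φ (b i) = lam i • b i)
    (s : Finset I) :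
    ExteriorAlgebra.map Φ (b.ExteriorAlgebra s) = (∏ i ∈ s, lam i) • b.ExteriorAlgebra s := by
  rw [ExteriorAlgebra.basis_apply_ofCard b (rfl : s.card = s.card)]
  unfold ExteriorAlgebra.ιMulti_family
  rw [ExteriorAlgebra.map_apply_ιMulti]
  have h1 : (⇑Φ ∘ ⇑b ∘ ⇑(Set.powersetCard.ofFinEmbEquiv.symm (Set.powersetCard.ofCard
      (rfl : s.card = s.card)))) =
      fun j => lam (Set.powersetCard.ofFinEmbEquiv.symm (Set.powersetCard.ofCard
      (rfl : s.card = s.card)) j) • (⇑b ∘ ⇑(Set.powersetCard.ofFinEmbEquiv.symm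
      (Set.powersetCard.ofCard (rfl : s.card = s.card)))) j := by
    funext j
    simp [hb]
  rw [h1]
  have h2 := (ExteriorAlgebra.ιMulti ℂ s.card (M := W)).toMultilinearMap.map_smul_univ
    (fun j => lam (Set.powersetCard.ofFinEmbEquiv.symm (Set.powersetCard.ofCard
      (rfl : s.card = s.card)) j)) (⇑b ∘ ⇑(Set.powersetCard.ofFinEmbEquiv.symm
      (Set.powersetCard.ofCard (rfl : s.card = s.card))))
  simp only [AlternatingMap.coe_multilinearMap] at h2
  rw [h2]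
  congr 1
  have h3 := Finset.prod_map (Finset.univ : Finset (Fin s.card)) (s.orderEmbOfFin rfl).toEmbedding lam
  rw [Finset.map_orderEmbOfFin_univ] at h3
  rw [h3]
  rfl

lemma mem_span_of_mem_pow {i : ℕ} {w : ExteriorAlgebra ℂ W} (hw : w ∈ ⋀[ℂ]^i W) :
    w ∈ Submodule.span ℂ (b.ExteriorAlgebra '' {s | s.card = i}) := by
  have h1 : (⟨w, hw⟩ : ⋀[ℂ]^i W) ∈ Submodule.span ℂ (Set.range (b.exteriorPower i)) := by
    rw [(b.exteriorPower i).span_eq]; trivial
  have h2 := Submodule.mem_map_of_mem (f := (⋀[ℂ]^i W).subtype) h1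
  rw [Submodule.map_span, ← Set.range_comp] at h2
  refine Submodule.span_mono ?_ h2
  rintro _ ⟨s, rfl⟩
  exact ⟨s.val, s.prop, ExteriorAlgebra.basis_eq_coe_basis b s⟩

end Basis

section Power

variable {V : Type*} [AddCommGroup V] [Module ℂ V]

lemma eigenbasis [FiniteDimensional ℂ V] (F : Module.End ℂ V) (hF : F.IsSemisimple) :
    ∃ (d : ℕ) (b : Basis (Fin d) ℂ V) (lam : Fin d → ℂ), ∀ i, F (b i) = lam i • b i := by
  classical
  let D := DirectSum.isInternal_submodule_of_iSupIndep_of_iSup_eq_top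
    F.eigenspaces_iSupIndep hF.iSup_eigenspace_eq_top
  let J := (ν : ℂ) × Fin (finrank ℂ (F.eigenspace ν))
  let v : Basis J ℂ V := D.collectedBasis fun μ ↦ finBasis ℂ (F.eigenspace μ)
  have : Fintype J := FiniteDimensional.fintypeBasisIndex v
  let e := Fintype.equivFin J
  refine ⟨Fintype.card J, v.reindex e, fun i => (e.symm i).1, fun i => ?_⟩
  rw [Basis.reindex_apply]
  exact Module.End.mem_eigenspace_iff.1 (D.collectedBasis_mem _ (e.symm i))

/-- an eigenbasis of the powers, with explicit indices -/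
lemma power_basis (F : Module.End ℂ V) {d : ℕ} (b : Basis (Fin d) ℂ V) (lam : Fin d → ℂ)
    (hb : ∀ i, F (b i) = lam i • b i) (n : ℕ) :
    ∃ (N : ℕ) (e : (Σ _ : Fin n, Fin d) ≃ Fin N) (B : Basis (Fin N) ℂ (Fin n → V)),
      ∀ i, (F.compLeft (Fin n)) (B i) = lam (e.symm i).2 • B i := by
  classical
  let e := Fintype.equivFin (Σ _ : Fin n, Fin d)
  refine ⟨_, e, (Pi.basis fun _ : Fin n => b).reindex e, fun i => ?_⟩
  rw [Basis.reindex_apply, Pi.basis_apply]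
  funext k
  rw [LinearMap.compLeft_apply]
  simp only [Function.comp_apply, Pi.smul_apply]
  rcases eq_or_ne k (e.symm i).1 with hk | hk
  · rw [hk, Pi.single_eq_same, hb]
  · rw [Pi.single_eq_of_ne hk, map_zero, smul_zero]

lemma hasEigenvalue_of_basis (F : Module.End ℂ V) {d : ℕ} (b : Basis (Fin d) ℂ V)
    (lam : Fin d → ℂ) (hb : ∀ i, F (b i) = lam i • b i) (i : Fin d) :
    F.HasEigenvalue (lam i) :=
  Module.End.hasEigenvalue_of_hasEigenvector
    ⟨Module.End.mem_eigenspace_iff.2 (hb i), b.ne_zero i⟩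

end Power

/-- eigenvalues on a span of eigenvectors -/
lemma eig_of_span {M : Type*} [AddCommGroup M] [Module ℂ M] (T : Module.End ℂ M) (E : Set ℂ)
    {x : M} (hx : x ∈ Submodule.span ℂ {y | ∃ μ ∈ E, T y = μ • y}) (hx0 : x ≠ 0) {β : ℂ}
    (hβ : T x = β • x) : β ∈ E := by
  by_contra hE
  have h1 : Submodule.span ℂ {y | ∃ μ ∈ E, T y = μ • y} ≤ ⨆ μ ∈ E, T.eigenspace μ := by
    rw [Submodule.span_le]
    rintro y ⟨μ, hμ, hy⟩
    exact Submodule.mem_iSup_of_mem μ (Submodule.mem_iSup_of_mem hμ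
      (Module.End.mem_eigenspace_iff.2 hy))
  have h2 := (T.eigenspaces_iSupIndep).disjoint_biSup hE
  exact hx0 ((Submodule.disjoint_def.1 h2) x (Module.End.mem_eigenspace_iff.2 hβ) (h1 hx))

lemma conj_of_norm {q : ℕ} (hq : 2 ≤ q) {α : ℂ} (h : ‖α‖ = Real.sqrt q) :
    (q : ℂ) / α = (starRingEnd ℂ) α := by
  have h1 : ‖α‖ ^ 2 = (q : ℝ) := by
    rw [h, Real.sq_sqrt (by positivity)]
  have h0 : α ≠ 0 := by
    intro h0
    rw [h0, norm_zero] at h1
    have : (2 : ℝ) ≤ q := by exact_mod_cast hq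
    norm_num at h1
    linarith
  rw [div_eq_iff h0, ← Complex.normSq_eq_conj_mul_self, Complex.normSq_eq_norm_sq, h1]
  simp

theorem div_eig {V : Type*} [AddCommGroup V] [Module ℂ V] [FiniteDimensional ℂ V] (q : ℕ)
    (hq : 2 ≤ q) (F : Module.End ℂ V) (hF : F.IsSemisimple)
    (hW : ∀ α, F.HasEigenvalue α → IsIntegral ℤ α ∧ ‖α‖ = Real.sqrt q)
    (n i ν : ℕ) (h : 2 * ν ≤ i) {x : ExteriorAlgebra ℂ (Fin n → V)}
    (hx : x ∈ Submodule.span ℂ {x | ∃ (d : Fin ν → ExteriorAlgebra ℂ (Fin n → V))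
      (w : ExteriorAlgebra ℂ (Fin n → V)),
      (∀ k, d k ∈ ⋀[ℂ]^2 (Fin n → V) ∧
        ExteriorAlgebra.map (F.compLeft (Fin n)) (d k) = (q : ℂ) • d k) ∧
      w ∈ ⋀[ℂ]^(i - 2 * ν) (Fin n → V) ∧ x = (List.ofFn d).prod * w})
    (hx0 : x ≠ 0) {β : ℂ} (hβ : ExteriorAlgebra.map (F.compLeft (Fin n)) x = β • x) :
    IsIntegral ℤ (β / (q : ℂ) ^ ν) ∧ IsIntegral ℤ ((q : ℂ) ^ (i - ν) / β) := by
  obtain ⟨m, b, lam, hb⟩ := eigenbasis F hF
  obtain ⟨N, e, B, hB⟩ := power_basis F b lam hb n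
  set lam' : Fin N → ℂ := fun j => lam (e.symm j).2 with hlam'
  have hlam : ∀ j, IsIntegral ℤ (lam' j) ∧ ‖lam' j‖ = Real.sqrt q := fun j =>
    hW _ (hasEigenvalue_of_basis F b lam hb _)
  set T : Module.End ℂ (ExteriorAlgebra ℂ (Fin n → V)) :=
    (ExteriorAlgebra.map (F.compLeft (Fin n))).toLinearMap with hT
  set E : Set ℂ := {μ | ∃ s : Finset (Fin N), s.card = i - 2 * ν ∧
    μ = (q : ℂ) ^ ν * ∏ j ∈ s, lam' j} with hE
  have hx' : x ∈ Submodule.span ℂ {y | ∃ μ ∈ E, T y = μ • y} := by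
    refine Submodule.span_le.2 ?_ hx
    rintro _ ⟨d, w, hd, hw, rfl⟩
    have hw' := mem_span_of_mem_pow B hw
    clear hw
    induction hw' using Submodule.span_induction with
    | mem w hw =>
      obtain ⟨s, hs, rfl⟩ := hw
      refine Submodule.subset_span ⟨_, ⟨s, hs, rfl⟩, ?_⟩
      rw [hT, AlgHom.toLinearMap_apply, div_map _ (q : ℂ) ν d (fun k => (hd k).2),
        map_basis B _ lam' hB, mul_smul_comm, smul_smul]
    | zero => rw [mul_zero]; exact Submodule.zero_mem _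
    | add x y _ _ hx hy => rw [mul_add]; exact Submodule.add_mem _ hx hy
    | smul c x _ hx => rw [mul_smul_comm]; exact Submodule.smul_mem _ c hx
  obtain ⟨s, hs, hβs⟩ := eig_of_span T E hx' hx0 hβ
  have hq0 : (q : ℂ) ≠ 0 := by
    have : q ≠ 0 := by omega
    exact_mod_cast this
  constructor
  · rw [hβs, mul_div_cancel_left₀ _ (pow_ne_zero _ hq0)]
    exact IsIntegral.prod _ fun j _ => (hlam j).1
  · have h1 : (q : ℂ) ^ (i - ν) / β = ∏ j ∈ s, (starRingEnd ℂ) (lam' j) := by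
      have h2 : ∏ j ∈ s, (starRingEnd ℂ) (lam' j) = ∏ j ∈ s, ((q : ℂ) / lam' j) :=
        Finset.prod_congr rfl fun j _ => (conj_of_norm hq (hlam j).2).symm
      rw [h2, Finset.prod_div_distrib, Finset.prod_const, hs, hβs]
      have h3 : i - ν = ν + (i - 2 * ν) := by omega
      rw [h3, pow_add, mul_div_mul_left _ _ (pow_ne_zero _ hq0)]
    rw [h1]
    exact IsIntegral.prod _ fun j _ => map_isIntegral_int (starRingEnd ℂ) (hlam j).1

end Pool.Agent.Helper60.GTC
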