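import Pool.Agent.Helper48.GC8.Tensor

/-!
# From tensors to the exterior algebra of `Vⁿ`
-/

set_option autoImplicit false
set_option linter.unusedSectionVars false

namespace Pool.Agent.Helper60.GTC

open Function Pool.Agent.Helper48.GC8

variable {I : Type} [Fintype I] [DecidableEq I] {n : ℕ}

/-- the multilinear map behind `psi` -/
noncomputable def psiMul {i : ℕ} (c : Fin i → Fin n) :
    MultilinearMap ℂ (fun _ : Fin i => (Fin n → I → ℂ)) (Ten (Fin i) I) where
  toFun v := fun y => ∏ k, v k (c k) (y k)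
  map_update_add' := by
    intro _ v j x x'
    funext y
    simp only [Pi.add_apply]
    rw [← Finset.mul_prod_erase Finset.univ _ (Finset.mem_univ j),
      ← Finset.mul_prod_erase Finset.univ (fun k => update v j x k (c k) (y k))
        (Finset.mem_univ j),
      ← Finset.mul_prod_erase Finset.univ (fun k => update v j x' k (c k) (y k))
        (Finset.mem_univ j)]
    have h : ∀ z : Fin n → I → ℂ, ∏ k ∈ Finset.univ.erase j, update v j z k (c k) (y k) =
        ∏ k ∈ Finset.univ.erase j, v k (c k) (y k) := by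
      intro z
      refine Finset.prod_congr rfl fun k hk => ?_
      rw [Function.update_of_ne (Finset.ne_of_mem_erase hk)]
    rw [h, h, h]
    simp [add_mul]
  map_update_smul' := by
    intro _ v j r x
    funext y
    simp only [Pi.smul_apply, smul_eq_mul]
    rw [← Finset.mul_prod_erase Finset.univ _ (Finset.mem_univ j),
      ← Finset.mul_prod_erase Finset.univ (fun k => update v j x k (c k) (y k))
        (Finset.mem_univ j)]
    have h : ∀ z : Fin n → I → ℂ, ∏ k ∈ Finset.univ.erase j, update v j z k (c k) (y k) =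
        ∏ k ∈ Finset.univ.erase j, v k (c k) (y k) := by
      intro z
      refine Finset.prod_congr rfl fun k hk => ?_
      rw [Function.update_of_ne (Finset.ne_of_mem_erase hk)]
    rw [h, h]
    simp [mul_assoc]

/-- Coordinates of the component with the slots `c` of an exterior form of degree `i`. -/
noncomputable def psi {i : ℕ} (c : Fin i → Fin n) :
    ExteriorAlgebra ℂ (Fin n → I → ℂ) →ₗ[ℂ] Ten (Fin i) I :=
  ExteriorAlgebra.liftAlternating (R := ℂ) (M := Fin n → I → ℂ)
    (Function.update 0 i (MultilinearMap.alternatization (psiMul c)))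

lemma psi_ιMulti {i : ℕ} (c : Fin i → Fin n) (v : Fin i → (Fin n → I → ℂ)) (y : Fin i → I) :
    psi c (ExteriorAlgebra.ιMulti ℂ i v) y =
      ∑ σ : Equiv.Perm (Fin i), ((Equiv.Perm.sign σ : ℤ) : ℂ) * ∏ k, v (σ k) (c k) (y k) := by
  unfold psi
  rw [ExteriorAlgebra.liftAlternating_apply_ιMulti, Function.update_self,
    MultilinearMap.alternatization_apply, Finset.sum_apply]
  refine Finset.sum_congr rfl fun σ _ => ?_
  rw [Units.smul_def, Pi.smul_apply, zsmul_eq_mul]
  rfl

/-- induction principle for homogeneous elements -/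
lemma ext_induction {W : Type} [AddCommGroup W] [Module ℂ W] {i : ℕ}
    {p : ExteriorAlgebra ℂ W → Prop} (hι : ∀ v : Fin i → W, p (ExteriorAlgebra.ιMulti ℂ i v))
    (h0 : p 0) (hadd : ∀ x y, p x → p y → p (x + y)) (hsmul : ∀ (r : ℂ) x, p x → p (r • x))
    {x : ExteriorAlgebra ℂ W} (hx : x ∈ ⋀[ℂ]^i W) : p x := by
  rw [← ExteriorAlgebra.ιMulti_span_fixedDegree] at hx
  induction hx using Submodule.span_induction with
  | mem x hx => obtain ⟨v, rfl⟩ := hx; exact hι v
  | zero => exact h0
  | add x y _ _ hx hy => exact hadd x y hx hy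
  | smul r x _ hx => exact hsmul r x hx

/-- action of a matrix on `Vⁿ` -/
noncomputable def mact (n : ℕ) (X : Matrix I I ℂ) : (Fin n → I → ℂ) →ₗ[ℂ] (Fin n → I → ℂ) :=
  (Matrix.toLin' X).compLeft (Fin n)

lemma mact_apply (X : Matrix I I ℂ) (v : Fin n → I → ℂ) (c : Fin n) (y : I) :
    mact n X v c y = ∑ z, X y z * v c z := by
  unfold mact
  rw [LinearMap.compLeft_apply]
  simp only [Function.comp_apply, Matrix.toLin'_apply, Matrix.mulVec, dotProduct]

lemma psi_map (X : Matrix I I ℂ) {i : ℕ} (c : Fin i → Fin n)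
    {x : ExteriorAlgebra ℂ (Fin n → I → ℂ)} (hx : x ∈ ⋀[ℂ]^i (Fin n → I → ℂ)) :
    psi c (ExteriorAlgebra.map ((Matrix.toLin' X).compLeft (Fin n)) x) =
      rho Finset.univ X (psi c x) := by
  refine ext_induction (p := fun x => psi c (ExteriorAlgebra.map
    ((Matrix.toLin' X).compLeft (Fin n)) x) = rho Finset.univ X (psi c x)) ?_ ?_ ?_ ?_ hx
  · intro v
    rw [ExteriorAlgebra.map_apply_ιMulti]
    funext y
    rw [psi_ιMulti, rho_apply]
    simp only [Finset.mem_univ, if_true, psi_ιMulti]
    have h1 : ∀ σ : Equiv.Perm (Fin i), ∏ k, ((⇑((Matrix.toLin' X).compLeft (Fin n)) ∘ v) (σ k))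
        (c k) (y k) = ∑ z : Fin i → I, ∏ k, (X (y k) (z k) * v (σ k) (c k) (z k)) := by
      intro σ
      have h2 : ∀ k, ((⇑((Matrix.toLin' X).compLeft (Fin n)) ∘ v) (σ k)) (c k) (y k) =
          ∑ z, X (y k) z * v (σ k) (c k) z := fun k => mact_apply X (v (σ k)) (c k) (y k)
      simp only [h2]
      rw [Finset.prod_univ_sum]
      simp
    simp only [h1, Finset.mul_sum]
    rw [Finset.sum_comm]
    refine Finset.sum_congr rfl fun z _ => Finset.sum_congr rfl fun σ _ => ?_
    rw [Finset.prod_mul_distrib]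
    ring
  · simp
  · intro x y hx hy
    simp only [map_add, hx, hy]
  · intro r x hx
    simp only [map_smul, hx]

/-- the class of the form `J` and the slots `k`, `l` -/
noncomputable def Om (J : Matrix I I ℂ) (k l : Fin n) :
    ExteriorAlgebra ℂ (Fin n → I → ℂ) :=
  ∑ r, ∑ s, J r s • (ExteriorAlgebra.ι ℂ (Pi.single k (Pi.single r (1 : ℂ))) *
    ExteriorAlgebra.ι ℂ (Pi.single l (Pi.single s (1 : ℂ))))

/-- the coordinate vector of the slot `k` and the letter `r` -/
noncomputable def dl (k : Fin n) (r : I) : Fin n → I → ℂ := Pi.single k (Pi.single r (1 : ℂ))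

lemma sum_dl (v : Fin n → I → ℂ) : v = ∑ k, ∑ r, v k r • dl k r := by
  funext k r
  simp only [Finset.sum_apply, Pi.smul_apply, smul_eq_mul, dl]
  rw [Finset.sum_eq_single k, Finset.sum_eq_single r]
  · simp
  · intro s _ hs
    simp [Ne.symm hs]
  · intro h; exact absurd (Finset.mem_univ _) h
  · intro l _ hl
    refine Finset.sum_eq_zero fun s _ => ?_
    simp [Ne.symm hl]
  · intro h; exact absurd (Finset.mem_univ _) h

/-- ordered products of coordinate vectors -/
noncomputable def word {i : ℕ} (c : Fin i → Fin n) (l : List (Fin i)) (y : Fin i → I) :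
    ExteriorAlgebra ℂ (Fin n → I → ℂ) :=
  (l.map fun k => ExteriorAlgebra.ι ℂ (dl (c k) (y k))).prod

lemma word_perm {i : ℕ} (c : Fin i → Fin n) {l₁ l₂ : List (Fin i)} (h : l₁.Perm l₂) :
    ∃ ε : ℤˣ, ∀ y : Fin i → I, word c l₁ y = ((ε : ℤ) : ℂ) • word c l₂ y := by
  induction h with
  | nil => exact ⟨1, fun y => by simp⟩
  | cons a _ ih =>
    obtain ⟨ε, hε⟩ := ih
    refine ⟨ε, fun y => ?_⟩
    have := hε y
    unfold word at this ⊢
    rw [List.map_cons, List.prod_cons, List.map_cons, List.prod_cons, this, mul_smul_comm]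
  | swap a b l =>
    refine ⟨-1, fun y => ?_⟩
    unfold word
    simp only [List.map_cons, List.prod_cons, ← mul_assoc]
    have h1 := ExteriorAlgebra.ι_add_mul_swap (R := ℂ) (dl (c b) (y b)) (dl (c a) (y a))
    rw [eq_neg_of_add_eq_zero_left h1]
    simp
  | trans _ _ ih₁ ih₂ =>
    obtain ⟨ε₁, h₁⟩ := ih₁
    obtain ⟨ε₂, h₂⟩ := ih₂
    refine ⟨ε₁ * ε₂, fun y => ?_⟩
    rw [h₁, h₂, smul_smul]
    push_cast
    rfl

lemma word_mem {i : ℕ} (c : Fin i → Fin n) (l : List (Fin i)) (y : Fin i → I) :
    word c l y ∈ ⋀[ℂ]^l.length (Fin n → I → ℂ) := by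
  have h := ExteriorAlgebra.ιMulti_range ℂ l.length (M := Fin n → I → ℂ)
    ⟨fun k => dl (c (l.get k)) (y (l.get k)), rfl⟩
  rw [ExteriorAlgebra.ιMulti_apply] at h
  have h2 : (List.ofFn fun k => ExteriorAlgebra.ι ℂ (dl (c (l.get k)) (y (l.get k)))) =
      l.map fun k => ExteriorAlgebra.ι ℂ (dl (c k) (y k)) := by
    apply List.ext_getElem
    · simp
    · intro k h1 h2
      simp
  rw [h2] at h
  exact h

lemma word_congr {i : ℕ} (c : Fin i → Fin n) (l : List (Fin i)) {y z : Fin i → I}
    (h : ∀ k ∈ l, y k = z k) : word c l y = word c l z := by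
  unfold word
  congr 1
  exact List.map_congr_left fun k hk => by rw [h k hk]

/-- the element with the coordinates `u` on the positions of `l` -/
noncomputable def Phi {i : ℕ} (c : Fin i → Fin n) (l : List (Fin i)) (u : Ten (Fin i) I) :
    ExteriorAlgebra ℂ (Fin n → I → ℂ) := ∑ y, u y • word c l y

lemma Phi_add {i : ℕ} (c : Fin i → Fin n) (l : List (Fin i)) (u v : Ten (Fin i) I) :
    Phi c l (u + v) = Phi c l u + Phi c l v := by
  unfold Phi
  simp [add_smul, Finset.sum_add_distrib]

lemma Phi_smul {i : ℕ} (c : Fin i → Fin n) (l : List (Fin i)) (r : ℂ) (u : Ten (Fin i) I) :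
    Phi c l (r • u) = r • Phi c l u := by
  unfold Phi
  simp [Finset.smul_sum, smul_smul]

lemma Phi_zero {i : ℕ} (c : Fin i → Fin n) (l : List (Fin i)) :
    Phi c l (0 : Ten (Fin i) I) = 0 := by
  unfold Phi; simp

/-- Insertions become multiplications with the classes `Om`. -/
lemma Phi_ins {i : ℕ} (c : Fin i → Fin n) (J : Matrix I I ℂ) {a b : Fin i} {l : List (Fin i)}
    (ha : a ∉ l) (hb : b ∉ l) (hab : a ≠ b) {v : Ten (Fin i) I}
    (hva : ∀ x r, v (update x a r) = v x) (hvb : ∀ x r, v (update x b r) = v x) :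
    (Fintype.card I * Fintype.card I) • Phi c (a :: b :: l) (ins J a b v) =
      Om J (c a) (c b) * Phi c l v := by
  unfold Phi
  rw [← avg2 a b, Finset.mul_sum]
  refine Finset.sum_congr rfl fun y _ => ?_
  unfold Om
  rw [Finset.sum_mul]
  refine Finset.sum_congr rfl fun r _ => ?_
  rw [Finset.sum_mul]
  refine Finset.sum_congr rfl fun s _ => ?_
  have h1 : word c l (update (update y a r) b s) = word c l y := by
    refine word_congr c l fun k hk => ?_
    have hka : k ≠ a := by rintro rfl; exact ha hk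
    have hkb : k ≠ b := by rintro rfl; exact hb hk
    rw [update_of_ne hkb, update_of_ne hka]
  have h2 : word c (a :: b :: l) (update (update y a r) b s) =
      ExteriorAlgebra.ι ℂ (dl (c a) r) * (ExteriorAlgebra.ι ℂ (dl (c b) s) * word c l y) := by
    rw [← h1]
    unfold word
    simp only [List.map_cons, List.prod_cons, update_self, update_of_ne hab]
  rw [h2, ins_apply, hvb, hva, update_self, update_of_ne hab, update_self]
  unfold dl
  rw [mul_smul_comm, smul_mul_assoc, smul_smul, mul_assoc, mul_comm (v y)]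

section link

variable {κ : Type} (J : κ → Matrix I I ℂ)
  (D : ℕ → ℕ → Submodule ℂ (ExteriorAlgebra ℂ (Fin n → I → ℂ)))

lemma Phi_mem (h0 : ∀ m, ⋀[ℂ]^m (Fin n → I → ℂ) ≤ D 0 m)
    (h1 : ∀ ν m a k l, ∀ x ∈ D ν m, Om (J a) k l * x ∈ D (ν + 1) (m + 2))
    {i : ℕ} (c : Fin i → Fin n) (ν : ℕ) :
    ∀ (R : Finset (Fin i)) (l : List (Fin i)), l.Nodup → l.toFinset = R →
      ∀ u ∈ Nv J ν R, Phi c l u ∈ D ν R.card := by
  induction ν with
  | zero =>
    intro R l hl hR u _
    unfold Phi
    refine Submodule.sum_mem _ fun y _ => Submodule.smul_mem _ _ (h0 _ ?_)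
    have := word_mem c l y
    rwa [← List.toFinset_card_of_nodup hl, hR] at this
  | succ ν ih =>
    intro R l hl hR u hu
    unfold Nv at hu
    induction hu using Submodule.span_induction with
    | mem u hu =>
      obtain ⟨t, a, ha, b, hb, hab, v, hv, rfl⟩ := hu
      have hvdep := Nv_le_dep J ν _ hv
      let l' := (R \ {a, b}).toList
      have hl' : l'.Nodup := Finset.nodup_toList _
      have hl'R : l'.toFinset = R \ {a, b} := Finset.toList_toFinset _
      have hal' : a ∉ l' := by simp [l']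
      have hbl' : b ∉ l' := by simp [l']
      have hperm : l.Perm (a :: b :: l') := by
        rw [List.perm_ext_iff_of_nodup hl]
        · intro k
          have hk : k ∈ l ↔ k ∈ R := by rw [← hR, List.mem_toFinset]
          rw [hk]
          simp only [List.mem_cons, l', Finset.mem_toList, Finset.mem_sdiff, Finset.mem_insert,
            Finset.mem_singleton, not_or]
          constructor
          · intro h
            by_cases h2 : k = a
            · exact Or.inl h2
            · by_cases h3 : k = b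
              · exact Or.inr (Or.inl h3)
              · exact Or.inr (Or.inr ⟨h, h2, h3⟩)
          · rintro (rfl | rfl | h)
            · exact ha
            · exact hb
            · exact h.1
        · simp [hal', hbl', hl', hab]
      obtain ⟨ε, hε⟩ := word_perm (I := I) c hperm
      have hPhi : Phi c l (ins (J t) a b v) =
          ((ε : ℤ) : ℂ) • Phi c (a :: b :: l') (ins (J t) a b v) := by
        unfold Phi
        rw [Finset.smul_sum]
        refine Finset.sum_congr rfl fun y _ => ?_
        rw [hε y, smul_comm]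
      rw [hPhi]
      refine Submodule.smul_mem _ _ ?_
      have hcard : (R \ {a, b}).card + 2 = R.card := by
        have hsub : {a, b} ⊆ R := by
          intro x hx
          rcases Finset.mem_insert.mp hx with rfl | hx
          · exact ha
          · rw [Finset.mem_singleton.mp hx]; exact hb
        have := Finset.card_sdiff_add_card_eq_card hsub
        rwa [Finset.card_pair hab] at this
      by_cases hI : Fintype.card I = 0
      · have : IsEmpty I := Fintype.card_eq_zero_iff.mp hI
        have : Phi c (a :: b :: l') (ins (J t) a b v) = 0 := by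
          unfold Phi
          have : IsEmpty (Fin i → I) := ⟨fun y => IsEmpty.false (y a)⟩
          simp
        rw [this]
        exact Submodule.zero_mem _
      · have h2 := Phi_ins c (J t) hal' hbl' hab (v := v)
          (fun x r => hvdep a (by simp) x r) (fun x r => hvdep b (by simp) x r)
        have h3 : ((Fintype.card I * Fintype.card I : ℕ) : ℂ) ≠ 0 := by
          exact_mod_cast Nat.mul_ne_zero hI hI
        have h4 : Phi c (a :: b :: l') (ins (J t) a b v) =
            ((Fintype.card I * Fintype.card I : ℕ) : ℂ)⁻¹ •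
              (Om (J t) (c a) (c b) * Phi c l' v) := by
          rw [← h2, ← Nat.cast_smul_eq_nsmul ℂ, smul_smul, inv_mul_cancel₀ h3, one_smul]
        rw [h4, ← hcard]
        exact Submodule.smul_mem _ _ (h1 _ _ _ _ _ _ (ih _ l' hl' hl'R v hv))
    | zero => rw [Phi_zero]; exact Submodule.zero_mem _
    | add x y _ _ hx hy => rw [Phi_add]; exact Submodule.add_mem _ hx hy
    | smul r x _ hx => rw [Phi_smul]; exact Submodule.smul_mem _ _ hx

lemma ιMulti_expand {i : ℕ} (v : Fin i → (Fin n → I → ℂ)) :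
    ExteriorAlgebra.ιMulti ℂ i v = ∑ c : Fin i → Fin n, ∑ y : Fin i → I,
      (∏ k, v k (c k) (y k)) • word c (List.finRange i) y := by
  have h1 : v = fun k => ∑ p : Fin n × I, v k p.1 p.2 • dl p.1 p.2 := by
    funext k
    rw [Fintype.sum_prod_type]
    exact sum_dl (v k)
  conv_lhs => rw [h1]
  rw [← AlternatingMap.coe_multilinearMap, MultilinearMap.map_sum]
  have h2 : ∀ p : Fin i → Fin n × I, (ExteriorAlgebra.ιMulti ℂ i).toMultilinearMap
      (fun k => v k (p k).1 (p k).2 • dl (p k).1 (p k).2) =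
      (∏ k, v k (p k).1 (p k).2) • word (fun k => (p k).1) (List.finRange i)
        (fun k => (p k).2) := by
    intro p
    rw [MultilinearMap.map_smul_univ]
    congr 1
    rw [AlternatingMap.coe_multilinearMap, ExteriorAlgebra.ιMulti_apply]
    unfold word
    congr 1
    rw [List.ofFn_eq_map]
  simp only [h2]
  rw [← Fintype.sum_prod_type']
  exact Fintype.sum_equiv (Equiv.arrowProdEquivProdArrow (Fin i) (fun _ => Fin n) (fun _ => I))
    _ _ (fun p => rfl)

lemma sum_Phi {i : ℕ} {x : ExteriorAlgebra ℂ (Fin n → I → ℂ)}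
    (hx : x ∈ ⋀[ℂ]^i (Fin n → I → ℂ)) :
    (Nat.factorial i : ℂ) • x = ∑ c : Fin i → Fin n, Phi c (List.finRange i) (psi c x) := by
  refine ext_induction (p := fun x => (Nat.factorial i : ℂ) • x =
    ∑ c : Fin i → Fin n, Phi c (List.finRange i) (psi c x)) ?_ ?_ ?_ ?_ hx
  · intro v
    have h1 : ∀ σ : Equiv.Perm (Fin i), ((Equiv.Perm.sign σ : ℤ) : ℂ) •
        ExteriorAlgebra.ιMulti ℂ i (fun k => v (σ k)) = ExteriorAlgebra.ιMulti ℂ i v := by
      intro σ
      have h2 := (ExteriorAlgebra.ιMulti ℂ i (M := Fin n → I → ℂ)).map_perm v σ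
      have h3 : (ExteriorAlgebra.ιMulti ℂ i) (fun k => v (σ k)) =
        (Equiv.Perm.sign σ) • (ExteriorAlgebra.ιMulti ℂ i) v := h2
      rw [h3]
      rcases Int.units_eq_one_or (Equiv.Perm.sign σ) with h | h <;> simp [h]
    have h4 : (Nat.factorial i : ℂ) • ExteriorAlgebra.ιMulti ℂ i v =
        ∑ σ : Equiv.Perm (Fin i), ((Equiv.Perm.sign σ : ℤ) : ℂ) •
          ExteriorAlgebra.ιMulti ℂ i (fun k => v (σ k)) := by
      simp only [h1]
      rw [Finset.sum_const, Finset.card_univ, Fintype.card_perm, Fintype.card_fin,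
        Nat.cast_smul_eq_nsmul]
    rw [h4]
    simp only [Phi, psi_ιMulti]
    simp only [ιMulti_expand, Finset.smul_sum, Finset.sum_smul, smul_smul]
    rw [Finset.sum_comm]
    refine Finset.sum_congr rfl fun c _ => ?_
    rw [Finset.sum_comm]
  · simp [Phi_zero]
  · intro x y hx hy
    simp only [smul_add, map_add, Phi_add, Finset.sum_add_distrib, hx, hy]
  · intro r x hx
    simp only [map_smul, Phi_smul, ← Finset.smul_sum, ← hx]
    rw [smul_comm]

/-- The link: forms whose coordinates are `ν`-fold insertions are sums of products with `ν`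
classes. -/
theorem link (h0 : ∀ m, ⋀[ℂ]^m (Fin n → I → ℂ) ≤ D 0 m)
    (h1 : ∀ ν m a k l, ∀ x ∈ D ν m, Om (J a) k l * x ∈ D (ν + 1) (m + 2))
    {i ν : ℕ} {x : ExteriorAlgebra ℂ (Fin n → I → ℂ)} (hx : x ∈ ⋀[ℂ]^i (Fin n → I → ℂ))
    (hN : ∀ c : Fin i → Fin n, psi c x ∈ Nv J ν Finset.univ) : x ∈ D ν i := by
  have h2 : (Nat.factorial i : ℂ) ≠ 0 := by exact_mod_cast Nat.factorial_ne_zero i
  have h3 : x = (Nat.factorial i : ℂ)⁻¹ •
      ∑ c : Fin i → Fin n, Phi c (List.finRange i) (psi c x) := by
    rw [← sum_Phi hx, smul_smul, inv_mul_cancel₀ h2, one_smul]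
  rw [h3]
  refine Submodule.smul_mem _ _ (Submodule.sum_mem _ fun c _ => ?_)
  have h4 := Phi_mem J D h0 h1 c ν Finset.univ (List.finRange i) (List.nodup_finRange i)
    (by ext; simp) (psi c x) (hN c)
  rwa [Finset.card_univ, Fintype.card_fin] at h4

end link

/-- the classes are multiplied by `q` under similitudes -/
lemma Om_map {X J : Matrix I I ℂ} {q : ℂ} (h : X * J * X.transpose = q • J) (k l : Fin n) :
    ExteriorAlgebra.map ((Matrix.toLin' X).compLeft (Fin n)) (Om J k l) = q • Om J k l := by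
  have h1 : ∀ (k : Fin n) (r : I), (Matrix.toLin' X).compLeft (Fin n)
      (Pi.single k (Pi.single r (1 : ℂ))) = ∑ r', X r' r • (dl k r') := by
    intro k r
    funext c y
    have := mact_apply X (Pi.single k (Pi.single r (1 : ℂ))) c y
    unfold mact at this
    rw [this]
    simp only [Finset.sum_apply, Pi.smul_apply, smul_eq_mul, dl]
    by_cases hc : c = k
    · subst hc
      simp [Pi.single_apply]
    · simp [hc]
  unfold Om
  simp only [map_sum, map_smul, map_mul, ExteriorAlgebra.map_apply_ι, h1]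
  simp only [Finset.sum_mul_sum, smul_mul_smul_comm, Finset.smul_sum, smul_smul]
  have h2 : ∀ r' s', ∑ r, ∑ s, J r s * (X r' r * X s' s) = q * J r' s' := by
    intro r' s'
    have h3 := congrFun (congrFun h r') s'
    rw [Matrix.smul_apply, smul_eq_mul, Matrix.mul_apply] at h3
    simp only [Matrix.mul_apply, Matrix.transpose_apply, Finset.sum_mul] at h3
    rw [← h3, Finset.sum_comm]
    exact Finset.sum_congr rfl fun r _ => Finset.sum_congr rfl fun s _ => by ring
  calc ∑ r, ∑ s, ∑ r', ∑ s', (J r s * (X r' r * X s' s)) •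
        (ExteriorAlgebra.ι ℂ (dl k r') * ExteriorAlgebra.ι ℂ (dl l s'))
      = ∑ r', ∑ s', ∑ r, ∑ s, (J r s * (X r' r * X s' s)) •
        (ExteriorAlgebra.ι ℂ (dl k r') * ExteriorAlgebra.ι ℂ (dl l s')) := by
        rw [Finset.sum_congr rfl fun r _ => Finset.sum_comm]
        rw [Finset.sum_comm]
        refine Finset.sum_congr rfl fun r' _ => ?_
        rw [Finset.sum_congr rfl fun r _ => Finset.sum_comm]
        rw [Finset.sum_comm]
    _ = _ := by
        refine Finset.sum_congr rfl fun r' _ => Finset.sum_congr rfl fun s' _ => ?_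
        simp only [← Finset.sum_smul, h2]
        rfl

lemma Om_mem (J : Matrix I I ℂ) (k l : Fin n) : Om J k l ∈ ⋀[ℂ]^2 (Fin n → I → ℂ) := by
  unfold Om
  refine Submodule.sum_mem _ fun r _ => Submodule.sum_mem _ fun s _ =>
    Submodule.smul_mem _ _ ?_
  have h := ExteriorAlgebra.ιMulti_range ℂ 2 (M := Fin n → I → ℂ)
    ⟨![Pi.single k (Pi.single r (1 : ℂ)), Pi.single l (Pi.single s (1 : ℂ))], rfl⟩
  rw [ExteriorAlgebra.ιMulti_apply] at h
  simpa using h

end Pool.Agent.Helper60.GTC
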