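import Pool.Agent.Helper60.GTC.Harm

/-!
# Commutation relations
-/

set_option autoImplicit false
set_option linter.unusedSectionVars false

namespace Pool.Agent.Helper60.GTC.Fock

open Module

variable {I : Type*} [DecidableEq I] {E : Type*} [AddCommGroup E] [Module ℂ E] (b : Fock I E)
  {n : ℕ} {S : Type*} [DecidableEq S] (idx : Fin n × (S ⊕ S) ≃ I)

/-- the commutator -/
def cm {A : Type*} [Ring A] (X Y : A) : A := X * Y - Y * X

section cm
variable {A : Type*} [Ring A] {ι : Type*}

lemma cm_mul_right (X Y Z : A) : cm X (Y * Z) = cm X Y * Z + Y * cm X Z := by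
  unfold cm; noncomm_ring
lemma cm_add_left (X Y Z : A) : cm (X + Y) Z = cm X Z + cm Y Z := by unfold cm; noncomm_ring
lemma cm_sub_left (X Y Z : A) : cm (X - Y) Z = cm X Z - cm Y Z := by unfold cm; noncomm_ring
lemma cm_add_right (X Y Z : A) : cm X (Y + Z) = cm X Y + cm X Z := by unfold cm; noncomm_ring
lemma cm_sub_right (X Y Z : A) : cm X (Y - Z) = cm X Y - cm X Z := by unfold cm; noncomm_ring
lemma cm_sum_left (s : Finset ι) (f : ι → A) (Z : A) :
    cm (∑ i ∈ s, f i) Z = ∑ i ∈ s, cm (f i) Z := by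
  unfold cm; rw [Finset.sum_mul, Finset.mul_sum, Finset.sum_sub_distrib]
lemma cm_sum_right (s : Finset ι) (f : ι → A) (Z : A) :
    cm Z (∑ i ∈ s, f i) = ∑ i ∈ s, cm Z (f i) := by
  unfold cm; rw [Finset.sum_mul, Finset.mul_sum, Finset.sum_sub_distrib]
end cm

/-- `[c_i* c_j, c_k*] = δ_jk c_i*` -/
lemma cm_cr_an_cr (i j k : I) :
    cm (b.cr i * b.an j) (b.cr k) = if j = k then b.cr i else 0 := by
  unfold cm
  rw [mul_assoc, b.an_cr, ← mul_assoc, b.cr_cr k i, mul_sub]
  split_ifs
  · noncomm_ring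
  · noncomm_ring

/-- `[c_i* c_j, c_k] = - δ_ik c_j` -/
lemma cm_cr_an_an (i j k : I) :
    cm (b.cr i * b.an j) (b.an k) = if i = k then - b.an j else 0 := by
  unfold cm
  rw [mul_assoc, b.an_an j k, ← mul_assoc, b.an_cr, sub_mul]
  by_cases h : i = k
  · subst h; simp only [if_true]; noncomm_ring
  · rw [if_neg h, if_neg (Ne.symm h)]; noncomm_ring

section lie

variable (s t u : S) (c d : Fin n) (T : Finset S)

lemma cm_R_ce : cm (b.R idx s t) (b.ce idx c u) = 0 := by
  unfold R ce af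
  rw [cm_sum_left]
  refine Finset.sum_eq_zero fun a _ => ?_
  rw [cm_cr_an_cr]; simp

lemma cm_R_cf : cm (b.R idx s t) (b.cf idx c u) = if t = u then b.ce idx c s else 0 := by
  unfold R ce af cf
  rw [cm_sum_left, Finset.sum_eq_single c]
  · rw [cm_cr_an_cr]; simp
  · intro a _ h; rw [cm_cr_an_cr]; simp [h]
  · intro h; exact absurd (Finset.mem_univ _) h

lemma cm_R_ae : cm (b.R idx s t) (b.ae idx c u) = if s = u then - b.af idx c t else 0 := by
  unfold R ce af ae
  rw [cm_sum_left, Finset.sum_eq_single c]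
  · rw [cm_cr_an_an]; simp
  · intro a _ h; rw [cm_cr_an_an]; simp [h]
  · intro h; exact absurd (Finset.mem_univ _) h

lemma cm_R_af : cm (b.R idx s t) (b.af idx c u) = 0 := by
  unfold R ce af
  rw [cm_sum_left]
  refine Finset.sum_eq_zero fun a _ => ?_
  rw [cm_cr_an_an]; simp

lemma cm_Rs_cf : cm (b.Rs idx s t) (b.cf idx c u) = 0 := by
  unfold Rs cf ae
  rw [cm_sum_left]
  refine Finset.sum_eq_zero fun a _ => ?_
  rw [cm_cr_an_cr]; simp

lemma cm_Rs_ce : cm (b.Rs idx s t) (b.ce idx c u) = if s = u then b.cf idx c t else 0 := by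
  unfold Rs ce ae cf
  rw [cm_sum_left, Finset.sum_eq_single c]
  · rw [cm_cr_an_cr]; simp
  · intro a _ h; rw [cm_cr_an_cr]; simp [h]
  · intro h; exact absurd (Finset.mem_univ _) h

lemma cm_Rs_af : cm (b.Rs idx s t) (b.af idx c u) = if t = u then - b.ae idx c s else 0 := by
  unfold Rs af ae cf
  rw [cm_sum_left, Finset.sum_eq_single c]
  · rw [cm_cr_an_an]; simp
  · intro a _ h; rw [cm_cr_an_an]; simp [h]
  · intro h; exact absurd (Finset.mem_univ _) h

lemma cm_Rs_ae : cm (b.Rs idx s t) (b.ae idx c u) = 0 := by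
  unfold Rs cf ae
  rw [cm_sum_left]
  refine Finset.sum_eq_zero fun a _ => ?_
  rw [cm_cr_an_an]; simp

lemma cm_A_ce : cm (b.Am idx s t) (b.ce idx c u) = if t = u then b.ce idx c s else 0 := by
  unfold Am ce af ae cf
  rw [cm_sum_left, Finset.sum_eq_single c]
  · rw [cm_sub_left, cm_cr_an_cr, cm_cr_an_cr]; simp
  · intro a _ h; rw [cm_sub_left, cm_cr_an_cr, cm_cr_an_cr]; simp [h]
  · intro h; exact absurd (Finset.mem_univ _) h

lemma cm_A_cf : cm (b.Am idx s t) (b.cf idx c u) = if s = u then - b.cf idx c t else 0 := by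
  unfold Am ce af ae cf
  rw [cm_sum_left, Finset.sum_eq_single c]
  · rw [cm_sub_left, cm_cr_an_cr, cm_cr_an_cr]; simp; split_ifs <;> simp
  · intro a _ h; rw [cm_sub_left, cm_cr_an_cr, cm_cr_an_cr]; simp [h]
  · intro h; exact absurd (Finset.mem_univ _) h

lemma cm_A_ae : cm (b.Am idx s t) (b.ae idx c u) = if s = u then - b.ae idx c t else 0 := by
  unfold Am ce af ae cf
  rw [cm_sum_left, Finset.sum_eq_single c]
  · rw [cm_sub_left, cm_cr_an_an, cm_cr_an_an]; simp
  · intro a _ h; rw [cm_sub_left, cm_cr_an_an, cm_cr_an_an]; simp [h]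
  · intro h; exact absurd (Finset.mem_univ _) h

lemma cm_A_af : cm (b.Am idx s t) (b.af idx c u) = if t = u then b.af idx c s else 0 := by
  unfold Am ce af ae cf
  rw [cm_sum_left, Finset.sum_eq_single c]
  · rw [cm_sub_left, cm_cr_an_an, cm_cr_an_an]; simp; split_ifs <;> simp
  · intro a _ h; rw [cm_sub_left, cm_cr_an_an, cm_cr_an_an]; simp [h]
  · intro h; exact absurd (Finset.mem_univ _) h

/-! the invariant classes commute with `sp` -/

lemma cm_R_D (hst : s ∈ T ↔ t ∈ T) :
    cm (b.Ep idx s t) (b.Dop idx T c d) = 0 := by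
  have key : ∀ (s t : S) (c d : Fin n), cm (b.R idx s t) (b.Pop idx T c d) =
      if t ∈ T then b.ce idx c t * b.ce idx d s else 0 := by
    intro s t c d
    unfold Pop
    rw [cm_sum_right]
    simp only [cm_mul_right, cm_R_ce, cm_R_cf, zero_mul, zero_add]
    simp only [mul_ite, mul_zero]
    rw [Finset.sum_ite_eq]
  unfold Ep Dop
  rw [cm_add_left, cm_add_right, cm_add_right, key, key, key, key]
  by_cases h : t ∈ T
  · have h' := hst.mpr h
    simp only [h, h', if_true]
    rw [b.ce_ce idx c d t s, b.ce_ce idx d c t s]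
    abel
  · have h' : s ∉ T := fun h2 => h (hst.mp h2)
    simp only [h, h', if_false]
    abel

lemma cm_Em_D (hst : s ∈ T ↔ t ∈ T) :
    cm (b.Em idx s t) (b.Dop idx T c d) = 0 := by
  have key : ∀ (s t : S) (c d : Fin n), cm (b.Rs idx s t) (b.Pop idx T c d) =
      if s ∈ T then b.cf idx c t * b.cf idx d s else 0 := by
    intro s t c d
    unfold Pop
    rw [cm_sum_right]
    simp only [cm_mul_right, cm_Rs_ce, cm_Rs_cf, mul_zero, add_zero]
    simp only [ite_mul, zero_mul]
    rw [Finset.sum_ite_eq]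
  unfold Em Dop
  rw [cm_add_left, cm_add_right, cm_add_right, key, key, key, key]
  by_cases h : t ∈ T
  · have h' := hst.mpr h
    simp only [h, h', if_true]
    rw [b.cf_cf idx c d t s, b.cf_cf idx d c t s]
    abel
  · have h' : s ∉ T := fun h2 => h (hst.mp h2)
    simp only [h, h', if_false]
    abel

lemma cm_A_D (hst : s ∈ T ↔ t ∈ T) :
    cm (b.Am idx s t) (b.Dop idx T c d) = 0 := by
  have key : ∀ (c d : Fin n), cm (b.Am idx s t) (b.Pop idx T c d) =
      (if t ∈ T then b.ce idx c s * b.cf idx d t else 0) +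
      (if s ∈ T then - (b.ce idx c s * b.cf idx d t) else 0) := by
    intro c d
    unfold Pop
    rw [cm_sum_right]
    simp only [cm_mul_right, cm_A_ce, cm_A_cf, ite_mul, mul_ite, zero_mul, mul_zero,
      Finset.sum_add_distrib, Finset.sum_ite_eq, mul_neg]
  unfold Dop
  rw [cm_add_right, key, key]
  by_cases h : t ∈ T
  · have h' := hst.mpr h
    simp only [h, h', if_true]
    abel
  · have h' : s ∉ T := fun h2 => h (hst.mp h2)
    simp only [h, h', if_false]
    abel

end lie

end Pool.Agent.Helper60.GTC.Fock
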