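import Pool.Agent.Helper60.GTC.Reduce

/-!
# The algebraic core
-/

set_option autoImplicit false
set_option linter.unusedSectionVars false

namespace Pool.Agent.Helper60.GTC.Fock

open Module

variable {I : Type*} [DecidableEq I] {E : Type*} [AddCommGroup E] [Module ℂ E] (b : Fock I E)

/-- the homogeneous part of degree `k` -/
def deg (k : ℕ) : Submodule ℂ E := Submodule.span ℂ (b.B '' {J | J.card = k})

lemma mem_deg {k : ℕ} {x : E} : x ∈ deg b k ↔ ∀ J, b.B.repr x J ≠ 0 → J.card = k := by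
  unfold deg
  rw [Basis.mem_span_image]
  constructor
  · intro h J hJ
    exact h (by simpa using hJ)
  · intro h J hJ
    exact h J (by simpa using hJ)

lemma map_deg {T : Module.End ℂ E} {k l : ℕ}
    (h : ∀ J : Finset I, J.card = k → T (b.B J) ∈ deg b l) {x : E} (hx : x ∈ deg b k) :
    T x ∈ deg b l := by
  unfold deg at hx
  induction hx using Submodule.span_induction with
  | mem x hx =>
    obtain ⟨J, hJ, rfl⟩ := hx
    exact h J hJ
  | zero => rw [map_zero]; exact Submodule.zero_mem _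
  | add x y _ _ hx hy => rw [map_add]; exact Submodule.add_mem _ hx hy
  | smul c x _ hx => rw [map_smul]; exact Submodule.smul_mem _ c hx

lemma basis_mem_deg (J : Finset I) : b.B J ∈ deg b J.card :=
  Submodule.subset_span ⟨J, rfl, rfl⟩

lemma cr_deg {k : ℕ} {x : E} (hx : x ∈ deg b k) (i : I) : b.cr i x ∈ deg b (k + 1) := by
  refine map_deg b (fun J hJ => ?_) hx
  by_cases h : i ∈ J
  · rw [b.cr_basis_mem i J h]; exact Submodule.zero_mem _
  · obtain ⟨c, hc⟩ := b.cr_basis i J h
    rw [hc]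
    have := basis_mem_deg b (insert i J)
    rw [Finset.card_insert_of_notMem h, hJ] at this
    exact Submodule.smul_mem _ _ this

lemma an_deg {k : ℕ} {x : E} (hx : x ∈ deg b k) (i : I) : b.an i x ∈ deg b (k - 1) := by
  refine map_deg b (fun J hJ => ?_) hx
  by_cases h : i ∈ J
  · obtain ⟨c, hc⟩ := b.cr_basis i (J.erase i) (Finset.notMem_erase i J)
    have h1 := b.an_basis i (J.erase i) (Finset.notMem_erase i J) c hc
    rw [Finset.insert_erase h] at h1
    rw [h1]
    have := basis_mem_deg b (J.erase i)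
    rw [Finset.card_erase_of_mem h, hJ] at this
    exact Submodule.smul_mem _ _ this
  · rw [b.an_basis_not_mem i J h]; exact Submodule.zero_mem _

lemma an_deg_zero {x : E} (hx : x ∈ deg b 0) (i : I) : b.an i x = 0 := by
  have h : ∀ x ∈ deg b 0, b.an i x = 0 := by
    intro x hx
    unfold deg at hx
    induction hx using Submodule.span_induction with
    | mem x hx =>
      obtain ⟨J, hJ, rfl⟩ := hx
      have : J = ∅ := Finset.card_eq_zero.mp hJ
      exact b.an_basis_not_mem i J (by simp [this])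
    | zero => rw [map_zero]
    | add x y _ _ hx hy => rw [map_add, hx, hy, add_zero]
    | smul c x _ hx => rw [map_smul, hx, smul_zero]
  exact h x hx

lemma cr_an_deg {k : ℕ} {x : E} (hx : x ∈ deg b k) (i j : I) :
    b.cr i (b.an j x) ∈ deg b k := by
  rcases Nat.eq_zero_or_pos k with rfl | hk
  · rw [an_deg_zero b hx j, map_zero]; exact Submodule.zero_mem _
  · have := cr_deg b (an_deg b hx j) i
    rwa [Nat.sub_add_cancel hk] at this

lemma dg_deg (χ : I → ℂ) {k : ℕ} {x : E} (hx : x ∈ deg b k) : dg b χ x ∈ deg b k := by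
  refine map_deg b (fun J hJ => ?_) hx
  rw [dg_basis, ← hJ]
  exact Submodule.smul_mem _ _ (basis_mem_deg b J)

variable {n : ℕ} {S : Type*} [DecidableEq S] [Fintype S] (idx : Fin n × (S ⊕ S) ≃ I)
  {β : Type*} [DecidableEq β] (blk : S → β)

lemma Ep_deg {k : ℕ} {x : E} (hx : x ∈ deg b k) (s t : S) : b.Ep idx s t x ∈ deg b k := by
  unfold Ep R
  rw [LinearMap.add_apply, LinearMap.sum_apply, LinearMap.sum_apply]
  exact Submodule.add_mem _ (Submodule.sum_mem _ fun a _ => cr_an_deg b hx _ _)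
    (Submodule.sum_mem _ fun a _ => cr_an_deg b hx _ _)

lemma Em_deg {k : ℕ} {x : E} (hx : x ∈ deg b k) (s t : S) : b.Em idx s t x ∈ deg b k := by
  unfold Em Rs
  rw [LinearMap.add_apply, LinearMap.sum_apply, LinearMap.sum_apply]
  exact Submodule.add_mem _ (Submodule.sum_mem _ fun a _ => cr_an_deg b hx _ _)
    (Submodule.sum_mem _ fun a _ => cr_an_deg b hx _ _)

lemma Am_deg {k : ℕ} {x : E} (hx : x ∈ deg b k) (s t : S) : b.Am idx s t x ∈ deg b k := by
  unfold Am
  rw [LinearMap.sum_apply]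
  exact Submodule.sum_mem _ fun a _ => Submodule.sub_mem _ (cr_an_deg b hx _ _)
    (cr_an_deg b hx _ _)

lemma Dop_deg {k : ℕ} {x : E} (hx : x ∈ deg b k) (T : Finset S) (a c : Fin n) :
    b.Dop idx T a c x ∈ deg b (k + 2) := by
  unfold Dop Pop
  rw [LinearMap.add_apply, LinearMap.sum_apply, LinearMap.sum_apply]
  exact Submodule.add_mem _ (Submodule.sum_mem _ fun _ _ => cr_deg b (cr_deg b hx _) _)
    (Submodule.sum_mem _ fun _ _ => cr_deg b (cr_deg b hx _) _)

lemma Cop_deg {k : ℕ} {x : E} (hx : x ∈ deg b k) (T : Finset S) (a c : Fin n) :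
    b.Cop idx T a c x ∈ deg b (k - 2) := by
  unfold Cop Qop
  rw [LinearMap.add_apply, LinearMap.sum_apply, LinearMap.sum_apply]
  exact Submodule.add_mem _ (Submodule.sum_mem _ fun _ _ => an_deg b (an_deg b hx _) _)
    (Submodule.sum_mem _ fun _ _ => an_deg b (an_deg b hx _) _)

lemma Cop_deg_lt {k : ℕ} {x : E} (hx : x ∈ deg b k) (hk : k < 2) (T : Finset S) (a c : Fin n) :
    b.Cop idx T a c x = 0 := by
  have h : ∀ i j : I, b.an i (b.an j x) = 0 := by
    intro i j
    have h1 := an_deg b hx j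
    have h2 : k - 1 = 0 := by omega
    rw [h2] at h1
    exact an_deg_zero b h1 i
  unfold Cop Qop af ae
  simp [LinearMap.sum_apply, Module.End.mul_apply, h]

/-- products of `ν` invariant classes with elements of degree `m` -/
def Dsub : ℕ → ℕ → Submodule ℂ E
  | 0, m => deg b m
  | ν + 1, m => ⨆ (c : β) (a : Fin n) (d : Fin n),
      (Dsub ν m).map (b.Dop idx (block blk c) a d)

lemma Dop_mem_Dsub {ν m : ℕ} {x : E} (hx : x ∈ Dsub b idx blk ν m) (c : β) (a d : Fin n) :
    b.Dop idx (block blk c) a d x ∈ Dsub b idx blk (ν + 1) m := by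
  unfold Dsub
  exact Submodule.mem_iSup_of_mem c (Submodule.mem_iSup_of_mem a
    (Submodule.mem_iSup_of_mem d (Submodule.mem_map_of_mem hx)))

lemma Dsub_induction {ν m : ℕ} {p : Submodule ℂ E}
    (h : ∀ (c : β) (a d : Fin n), ∀ x ∈ Dsub b idx blk ν m,
      b.Dop idx (block blk c) a d x ∈ p) : Dsub b idx blk (ν + 1) m ≤ p := by
  rw [Dsub]
  refine iSup_le fun c => iSup_le fun a => iSup_le fun d => ?_
  rintro _ ⟨x, hx, rfl⟩
  exact h c a d x hx

lemma Dsub_le_deg (ν m : ℕ) : Dsub b idx blk ν m ≤ deg b (m + 2 * ν) := by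
  induction ν with
  | zero => exact le_rfl
  | succ ν ih =>
    refine Dsub_induction b idx blk fun c a d x hx => ?_
    exact Dop_deg b idx (ih hx) _ a d

/-- stability of `Dsub` under operators commuting with the classes -/
lemma Dsub_stable {T : Module.End ℂ E}
    (hT : ∀ (c : β) (a d : Fin n), ∃ κ : ℂ, ∀ x, T (b.Dop idx (block blk c) a d x) =
      κ • b.Dop idx (block blk c) a d (T x))
    (hd : ∀ m, ∀ x ∈ deg b m, T x ∈ deg b m) (ν m : ℕ) :
    ∀ x ∈ Dsub b idx blk ν m, T x ∈ Dsub b idx blk ν m := by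
  induction ν with
  | zero => exact hd m
  | succ ν ih =>
    have : Dsub b idx blk (ν + 1) m ≤ (Dsub b idx blk (ν + 1) m).comap T := by
      refine Dsub_induction b idx blk fun c a d x hx => ?_
      obtain ⟨κ, hκ⟩ := hT c a d
      rw [Submodule.mem_comap, hκ]
      exact Submodule.smul_mem _ _ (Dop_mem_Dsub b idx blk (ih x hx) c a d)
    exact this

lemma comm_of_cm {X Y : Module.End ℂ E} (h : cm X Y = 0) (x : E) : X (Y x) = Y (X x) := by
  rw [cm_apply, h]; simp

lemma mem_block_iff {s t : S} (h : blk s = blk t) (c : β) :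
    s ∈ block blk c ↔ t ∈ block blk c := by
  simp [block, h]

lemma Ep_Dop {s t : S} (h : blk s = blk t) (c : β) (a d : Fin n) (x : E) :
    b.Ep idx s t (b.Dop idx (block blk c) a d x) =
      b.Dop idx (block blk c) a d (b.Ep idx s t x) :=
  comm_of_cm (cm_R_D b idx s t a d _ (mem_block_iff blk h c)) x

lemma Em_Dop {s t : S} (h : blk s = blk t) (c : β) (a d : Fin n) (x : E) :
    b.Em idx s t (b.Dop idx (block blk c) a d x) =
      b.Dop idx (block blk c) a d (b.Em idx s t x) :=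
  comm_of_cm (cm_Em_D b idx s t a d _ (mem_block_iff blk h c)) x

lemma Am_Dop {s t : S} (h : blk s = blk t) (c : β) (a d : Fin n) (x : E) :
    b.Am idx s t (b.Dop idx (block blk c) a d x) =
      b.Dop idx (block blk c) a d (b.Am idx s t x) :=
  comm_of_cm (cm_A_D b idx s t a d _ (mem_block_iff blk h c)) x

lemma Dsub_spStable (ν m : ℕ) : SpStable b idx blk (Dsub b idx blk ν m) where
  ep s t h := Dsub_stable b idx blk (fun c a d => ⟨1, fun x => by
    rw [one_smul]; exact Ep_Dop b idx blk h c a d x⟩) (fun m x hx => Ep_deg b idx hx s t) ν m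
  em s t h := Dsub_stable b idx blk (fun c a d => ⟨1, fun x => by
    rw [one_smul]; exact Em_Dop b idx blk h c a d x⟩) (fun m x hx => Em_deg b idx hx s t) ν m
  am s t h := Dsub_stable b idx blk (fun c a d => ⟨1, fun x => by
    rw [one_smul]; exact Am_Dop b idx blk h c a d x⟩) (fun m x hx => Am_deg b idx hx s t) ν m

/-- all `ν`-fold contractions vanish -/
def Cvan : ℕ → E → Prop
  | 0, y => y = 0
  | ν + 1, y => ∀ (c : β) (a d : Fin n), Cvan ν (b.Cop idx (block blk c) a d y)

section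

variable [Fintype I]

lemma comm_of_adj {T T' U U' : Module.End ℂ E} (hT : IsAdj b T T') (hU : IsAdj b U U')
    (h : ∀ x, T' (U' x) = U' (T' x)) (x : E) : T (U x) = U (T x) := by
  have h1 := hT.mul hU
  have h2 := hU.mul hT
  have h3 : T' * U' = U' * T' := LinearMap.ext h
  rw [h3] at h2
  exact congrArg (fun X : Module.End ℂ E => X x) (h1.symm.unique h2.symm)

lemma Ep_Cop {s t : S} (h : blk s = blk t) (c : β) (a d : Fin n) (x : E) :
    b.Ep idx s t (b.Cop idx (block blk c) a d x) =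
      b.Cop idx (block blk c) a d (b.Ep idx s t x) :=
  comm_of_adj b (adj_Ep b idx s t) (adj_C b idx _ a d) (fun y => Em_Dop b idx blk h c a d y) x

lemma Em_Cop {s t : S} (h : blk s = blk t) (c : β) (a d : Fin n) (x : E) :
    b.Em idx s t (b.Cop idx (block blk c) a d x) =
      b.Cop idx (block blk c) a d (b.Em idx s t x) :=
  comm_of_adj b (adj_Ep b idx s t).symm (adj_C b idx _ a d)
    (fun y => Ep_Dop b idx blk h c a d y) x

lemma Am_Cop {s t : S} (h : blk s = blk t) (c : β) (a d : Fin n) (x : E) :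
    b.Am idx s t (b.Cop idx (block blk c) a d x) =
      b.Cop idx (block blk c) a d (b.Am idx s t x) :=
  comm_of_adj b (adj_A b idx s t) (adj_C b idx _ a d)
    (fun y => Am_Dop b idx blk h.symm c a d y) x

lemma cvan_of_perp (ν m : ℕ) : ∀ y ∈ deg b (m + 2 * ν), y ∈ perp b (Dsub b idx blk ν m) →
    Cvan b idx blk ν y := by
  induction ν with
  | zero =>
    intro y hy hp
    have h := hp y hy
    rw [ip_self] at h
    exact nsq_eq_zero b (by exact_mod_cast h)
  | succ ν ih =>
    intro y hy hp c a d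
    refine ih _ ?_ ?_
    · have := Cop_deg b idx hy (block blk c) a d
      have h2 : m + 2 * (ν + 1) - 2 = m + 2 * ν := by omega
      rwa [h2] at this
    · intro w hw
      rw [← (adj_C b idx (block blk c) a d).symm w y]
      exact hp _ (Dop_mem_Dsub b idx blk hw c a d)

lemma SpStable.map {M : Submodule ℂ E} (hM : SpStable b idx blk M) {T : Module.End ℂ E}
    (h1 : ∀ s t, blk s = blk t → ∀ x, b.Ep idx s t (T x) = T (b.Ep idx s t x))
    (h2 : ∀ s t, blk s = blk t → ∀ x, b.Em idx s t (T x) = T (b.Em idx s t x))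
    (h3 : ∀ s t, blk s = blk t → ∀ x, b.Am idx s t (T x) = T (b.Am idx s t x)) :
    SpStable b idx blk (M.map T) where
  ep s t h := by
    rintro _ ⟨x, hx, rfl⟩
    exact ⟨_, hM.ep s t h x hx, (h1 s t h x).symm⟩
  em s t h := by
    rintro _ ⟨x, hx, rfl⟩
    exact ⟨_, hM.em s t h x hx, (h2 s t h x).symm⟩
  am s t h := by
    rintro _ ⟨x, hx, rfl⟩
    exact ⟨_, hM.am s t h x hx, (h3 s t h x).symm⟩

variable {al be : S → ℂ} {q : ℂ} {χ : I → ℂ}

lemma Cop_dg (hal : ∀ a s, χ (idx (a, Sum.inl s)) = al s)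
    (hbe : ∀ a s, χ (idx (a, Sum.inr s)) = be s) (hq : ∀ s, al s * be s = q)
    (T : Finset S) (a d : Fin n) (x : E) :
    b.Cop idx T a d (dg b χ x) = q • dg b χ (b.Cop idx T a d x) := by
  have h1 : ∀ i x, b.an i (dg b χ x) = χ i • dg b χ (b.an i x) := fun i x =>
    congrArg (fun X : Module.End ℂ E => X x) (dg_an b χ i)
  have h2 : ∀ s (a d : Fin n), b.af idx d s (b.ae idx a s (dg b χ x)) =
      q • dg b χ (b.af idx d s (b.ae idx a s x)) := by
    intro s a d
    unfold af ae
    rw [h1, map_smul, h1, smul_smul, hal, hbe, hq]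
  unfold Cop Qop
  simp only [LinearMap.add_apply, LinearMap.sum_apply, Module.End.mul_apply, h2, map_add,
    map_sum, smul_add, Finset.smul_sum]

lemma Dop_dg (hal : ∀ a s, χ (idx (a, Sum.inl s)) = al s)
    (hbe : ∀ a s, χ (idx (a, Sum.inr s)) = be s) (hq : ∀ s, al s * be s = q)
    (T : Finset S) (a d : Fin n) (x : E) :
    dg b χ (b.Dop idx T a d x) = q • b.Dop idx T a d (dg b χ x) := by
  have h1 : ∀ i x, dg b χ (b.cr i x) = χ i • b.cr i (dg b χ x) := fun i x =>
    congrArg (fun X : Module.End ℂ E => X x) (dg_cr b χ i)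
  have h2 : ∀ s (a d : Fin n), dg b χ (b.ce idx a s (b.cf idx d s x)) =
      q • b.ce idx a s (b.cf idx d s (dg b χ x)) := by
    intro s a d
    unfold ce cf
    rw [h1, h1, map_smul, smul_smul, hal, hbe, hq]
  unfold Dop Pop
  simp only [LinearMap.add_apply, LinearMap.sum_apply, Module.End.mul_apply, h2, map_add,
    map_sum, smul_add, Finset.smul_sum]

lemma sum_J {A : Type*} [AddCommMonoid A] (J : Finset I) (f : I → A)
    (hJ : ∀ (a : Fin n) (s : S), idx (a, Sum.inr s) ∉ J) :
    ∑ i ∈ J, f i = ∑ s, ∑ a ∈ Finset.univ.filter (fun a : Fin n => idx (a, Sum.inl s) ∈ J),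
      f (idx (a, Sum.inl s)) := by
  have h1 : ∑ i ∈ J, f i = ∑ i : I, if i ∈ J then f i else 0 := by
    rw [← Finset.sum_filter]; congr 1; ext; simp
  rw [h1, ← Equiv.sum_comp idx, Fintype.sum_prod_type]
  simp only [Fintype.sum_sum_type, hJ, if_false, Finset.sum_const_zero, add_zero]
  rw [Finset.sum_comm]
  refine Finset.sum_congr rfl fun s _ => ?_
  rw [Finset.sum_filter]

lemma prod_J (J : Finset I) (f : I → ℂ) (hJ : ∀ (a : Fin n) (s : S), idx (a, Sum.inr s) ∉ J) :
    ∏ i ∈ J, f i = ∏ s, ∏ a ∈ Finset.univ.filter (fun a : Fin n => idx (a, Sum.inl s) ∈ J),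
      f (idx (a, Sum.inl s)) := by
  have h1 : ∏ i ∈ J, f i = ∏ i : I, if i ∈ J then f i else 1 := by
    rw [← Finset.prod_filter]; congr 1; ext; simp
  rw [h1, ← Equiv.prod_comp idx, Fintype.prod_prod_type]
  simp only [Fintype.prod_sum_type, hJ, if_false, Finset.prod_const_one, mul_one]
  rw [Finset.prod_comm]
  refine Finset.prod_congr rfl fun s _ => ?_
  rw [Finset.prod_filter]

/-- the harmonic vector is an eigenvector of the Frobenius -/
lemma harmonic_eigen (hal : ∀ a s, χ (idx (a, Sum.inl s)) = al s) {x : E}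
    (haf : ∀ a s, b.af idx a s x = 0) {lam : S → ℕ}
    (hlam : IsWt b idx x (fun s => (lam s : ℤ))) :
    dg b χ x = (∏ s, al s ^ lam s) • x ∧
      ∀ J, b.B.repr x J ≠ 0 → J.card = ∑ s, lam s := by
  have key : ∀ J, b.B.repr x J ≠ 0 → (∀ (a : Fin n) (s : S), idx (a, Sum.inr s) ∉ J) ∧
      ∀ s, (Finset.univ.filter fun a : Fin n => idx (a, Sum.inl s) ∈ J).card = lam s := by
    intro J hJ
    have hJf : ∀ (a : Fin n) (s : S), idx (a, Sum.inr s) ∉ J := by
      intro a s hmem
      have h1 := repr_num b (idx (a, Sum.inr s)) x J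
      have h2 : b.an (idx (a, Sum.inr s)) x = 0 := haf a s
      rw [h2, map_zero, if_pos hmem] at h1
      exact hJ (by simpa using h1.symm)
    refine ⟨hJf, fun s => ?_⟩
    have h3 := hlam.wtJ hJ s
    unfold Fock.wtJ at h3
    rw [Finset.filter_false_of_mem (p := fun a : Fin n => idx (a, Sum.inr s) ∈ J)
      (fun a _ => hJf a s)] at h3
    simpa using h3
  constructor
  · apply b.B.repr.injective
    ext J
    rw [repr_dg, map_smul, Finsupp.smul_apply, smul_eq_mul]
    by_cases hJ : b.B.repr x J = 0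
    · rw [hJ]; ring
    · obtain ⟨h1, h2⟩ := key J hJ
      rw [prod_J idx J χ h1]
      congr 1
      refine Finset.prod_congr rfl fun s _ => ?_
      simp only [hal, Finset.prod_const, h2]
  · intro J hJ
    obtain ⟨h1, h2⟩ := key J hJ
    rw [Finset.card_eq_sum_ones, sum_J idx J (fun _ => 1) h1]
    refine Finset.sum_congr rfl fun s _ => ?_
    rw [Finset.sum_const, smul_eq_mul, mul_one, h2]

/-- The induction on the number of contractions. -/
theorem cvan_vector (hal : ∀ a s, χ (idx (a, Sum.inl s)) = al s)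
    (hbe : ∀ a s, χ (idx (a, Sum.inr s)) = be s) (hq : ∀ s, al s * be s = q) (hq0 : q ≠ 0)
    (sl : S → ℝ) (hsl : ∀ s, sl s < 1) (ν : ℕ) :
    ∀ (i : ℕ) (M : Submodule ℂ E), M ≠ ⊥ → SpStable b idx blk M → M ≤ deg b i →
      (∀ x ∈ M, dg b χ x ∈ M) → (∀ x ∈ M, Cvan b idx blk ν x) →
      ∃ x ∈ M, x ≠ 0 ∧ ∃ j < ν, ∃ lam : S → ℕ, ∑ s, lam s + 2 * j = i ∧
        dg b χ x = (q ^ j * ∏ s, al s ^ lam s) • x ∧
        ∀ s t, blk s = blk t → sl s < sl t → lam t ≤ lam s := by
  induction ν with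
  | zero =>
    intro i M hM _ _ _ hv
    exfalso
    obtain ⟨x, hx, hx0⟩ := (Submodule.ne_bot_iff M).mp hM
    exact hx0 (hv x hx)
  | succ ν ih =>
    intro i M hM hst hdeg hF hv
    by_cases hC : ∀ x ∈ M, ∀ (c : β) (a d : Fin n), b.Cop idx (block blk c) a d x = 0
    · obtain ⟨x, hxM, hx, haf, lam, hlam, hanti⟩ := harmonic_vector b idx blk M hM hst hC sl hsl
      obtain ⟨h1, h2⟩ := harmonic_eigen (χ := χ) b idx hal haf hlam
      refine ⟨x, hxM, hx, 0, Nat.succ_pos _, lam, ?_, by simpa using h1, hanti⟩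
      obtain ⟨J, hJ⟩ := exists_repr_ne b hx
      rw [mul_zero, add_zero, ← h2 J hJ]
      exact (mem_deg b).mp (hdeg hxM) J hJ
    · push Not at hC
      obtain ⟨y0, hy0, c, a, d, hne⟩ := hC
      have hi : 2 ≤ i := by
        by_contra hlt
        push Not at hlt
        exact hne (Cop_deg_lt b idx (hdeg hy0) hlt _ a d)
      let T : Module.End ℂ E := b.Cop idx (block blk c) a d
      have hM1 : M.map T ≠ ⊥ := by
        rw [Submodule.ne_bot_iff]
        exact ⟨T y0, ⟨y0, hy0, rfl⟩, hne⟩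
      have hst1 : SpStable b idx blk (M.map T) := SpStable.map b idx blk hst
        (fun s t h x => Ep_Cop b idx blk h c a d x) (fun s t h x => Em_Cop b idx blk h c a d x)
        (fun s t h x => Am_Cop b idx blk h c a d x)
      have hT : ∀ y, T (dg b χ y) = q • dg b χ (T y) := fun y =>
        Cop_dg b idx hal hbe hq _ a d y
      obtain ⟨x1, ⟨y, hy, rfl⟩, hx10, j, hj, lam, hlam, heig, hanti⟩ := ih (i - 2) (M.map T) hM1
        hst1 (by
          rintro _ ⟨y, hy, rfl⟩
          exact Cop_deg b idx (hdeg hy) _ a d) (by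
          rintro _ ⟨y, hy, rfl⟩
          refine ⟨q⁻¹ • dg b χ y, M.smul_mem _ (hF y hy), ?_⟩
          rw [map_smul, hT, smul_smul, inv_mul_cancel₀ hq0, one_smul]) (by
          rintro _ ⟨y, hy, rfl⟩
          exact hv y hy c a d)
      obtain ⟨z, hzM, hz, hzeig⟩ := lift_eigen b χ hT M hF hy hx10 heig
      refine ⟨z, hzM, hz, j + 1, by omega, lam, by omega, ?_, hanti⟩
      rw [hzeig]
      congr 1
      ring

/-- **Core theorem**, abstract version. -/
theorem core (hal : ∀ a s, χ (idx (a, Sum.inl s)) = al s)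
    (hbe : ∀ a s, χ (idx (a, Sum.inr s)) = be s) (hq : ∀ s, al s * be s = q) (hq0 : q ≠ 0)
    (sl : S → ℝ) (hsl : ∀ s, sl s < 1) (ν m : ℕ) (M : Submodule ℂ E)
    (hst : SpStable b idx blk M) (hdeg : M ≤ deg b (m + 2 * ν))
    (hF : ∀ x ∈ M, dg b χ x ∈ M) :
    M ≤ Dsub b idx blk ν m ∨
      ∃ x ∈ M, x ≠ 0 ∧ ∃ j < ν, ∃ lam : S → ℕ, ∑ s, lam s + 2 * j = m + 2 * ν ∧
        dg b χ x = (q ^ j * ∏ s, al s ^ lam s) • x ∧
        ∀ s t, blk s = blk t → sl s < sl t → lam t ≤ lam s := by
  by_cases hM : M ≤ Dsub b idx blk ν m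
  · exact Or.inl hM
  refine Or.inr ?_
  set D := Dsub b idx blk ν m with hD
  have hDst := Dsub_spStable b idx blk ν m
  obtain ⟨y0, hy0, hy0D⟩ := Set.not_subset.mp hM
  let P : Module.End ℂ E := projP b D
  have hPF : ∀ y, P (dg b χ y) = (1 : ℂ) • dg b χ (P y) := by
    intro y
    rw [one_smul]
    refine projP_comm b (adj_dg b χ) ?_ ?_ y
    · exact Dsub_stable b idx blk (fun c a d => ⟨q, fun x => Dop_dg b idx hal hbe hq _ a d x⟩)
        (fun m x hx => dg_deg b χ hx) ν m
    · refine Dsub_stable b idx blk (fun c a d => ⟨(starRingEnd ℂ) q, fun x =>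
        Dop_dg (al := fun s => (starRingEnd ℂ) (al s)) (be := fun s => (starRingEnd ℂ) (be s))
          b idx (fun a s => ?_) (fun a s => ?_) (fun s => ?_) _ a d x⟩)
        (fun m x hx => dg_deg b _ hx) ν m
      · rw [hal]
      · rw [hbe]
      · rw [← map_mul, hq]
  have hst1 : SpStable b idx blk (M.map P) := SpStable.map b idx blk hst
    (fun s t h x => (projP_comm b (adj_Ep b idx s t) (hDst.ep s t h) (hDst.em s t h) x).symm)
    (fun s t h x => (projP_comm b (adj_Ep b idx s t).symm (hDst.em s t h) (hDst.ep s t h)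
      x).symm)
    (fun s t h x => (projP_comm b (adj_A b idx s t) (hDst.am s t h) (hDst.am t s h.symm)
      x).symm)
  have hdeg1 : M.map P ≤ deg b (m + 2 * ν) := by
    rintro _ ⟨y, hy, rfl⟩
    have h1 : P y = y - (y - P y) := by abel
    rw [h1]
    exact Submodule.sub_mem _ (hdeg hy) (Dsub_le_deg b idx blk ν m (sub_projP_mem b D y))
  obtain ⟨x1, ⟨y, hy, rfl⟩, hx10, j, hj, lam, hlam, heig, hanti⟩ :=
    cvan_vector b idx blk hal hbe hq hq0 sl hsl ν (m + 2 * ν) (M.map P) (by
      rw [Submodule.ne_bot_iff]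
      exact ⟨P y0, ⟨y0, hy0, rfl⟩, fun h => hy0D ((projP_eq_zero b).mp h)⟩) hst1 hdeg1 (by
      rintro _ ⟨y, hy, rfl⟩
      refine ⟨dg b χ y, hF y hy, ?_⟩
      rw [hPF, one_smul]) (by
      rintro _ ⟨y, hy, rfl⟩
      exact cvan_of_perp b idx blk ν m _ (hdeg1 ⟨y, hy, rfl⟩) (projP_mem b D y))
  obtain ⟨z, hzM, hz, hzeig⟩ := lift_eigen b χ hPF M hF hy hx10 heig
  refine ⟨z, hzM, hz, j, hj, lam, hlam, ?_, hanti⟩
  rw [hzeig, one_mul]

end

end Pool.Agent.Helper60.GTC.Fock
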