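import Pool.Agent.Helper60.GTC.Weight

/-!
# The extremal vector of a harmonic subspace
-/

set_option autoImplicit false
set_option linter.unusedSectionVars false

namespace Pool.Agent.Helper60.GTC.Fock

open Module

variable {I : Type*} [DecidableEq I] {E : Type*} [AddCommGroup E] [Module ℂ E] (b : Fock I E)
  {n : ℕ} {S : Type*} [DecidableEq S] [Fintype S] (idx : Fin n × (S ⊕ S) ≃ I)
  {β : Type*} [DecidableEq β] (blk : S → β)

/-- the block of `c` -/
def block (c : β) : Finset S := Finset.univ.filter fun s => blk s = c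

/-- stability under the operators of `∏ sp(V_c)` -/
structure SpStable (M : Submodule ℂ E) : Prop where
  ep : ∀ s t, blk s = blk t → ∀ x ∈ M, b.Ep idx s t x ∈ M
  em : ∀ s t, blk s = blk t → ∀ x ∈ M, b.Em idx s t x ∈ M
  am : ∀ s t, blk s = blk t → ∀ x ∈ M, b.Am idx s t x ∈ M

variable [Fintype I]

/-- A non-zero harmonic stable subspace contains an extremal vector. -/
theorem harmonic_vector (M : Submodule ℂ E) (hM : M ≠ ⊥) (hst : SpStable b idx blk M)
    (hC : ∀ x ∈ M, ∀ c a d, b.Cop idx (block blk c) a d x = 0) (sl : S → ℝ)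
    (hsl : ∀ s, sl s < 1) :
    ∃ x ∈ M, x ≠ 0 ∧ (∀ a s, b.af idx a s x = 0) ∧ ∃ lam : S → ℕ,
      IsWt b idx x (fun s => (lam s : ℤ)) ∧
      ∀ s t, blk s = blk t → sl s < sl t → lam t ≤ lam s := by
  obtain ⟨y, hyM, hy, mu, hmu⟩ := exists_wt b idx M hM (fun s x hx => hst.am s s rfl x hx)
  obtain ⟨lam, ⟨x, hxM, hx, hlam⟩, hmax⟩ := Set.exists_max_image
    {lam : S → ℤ | ∃ x ∈ M, x ≠ 0 ∧ IsWt b idx x lam}
    (fun lam => ∑ s, (lam s : ℝ) * (1 - sl s)) (finite_wt b idx M) ⟨mu, y, hyM, hy, hmu⟩
  -- killed by the raising operators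
  have hE : ∀ s t, blk s = blk t → b.Ep idx s t x = 0 := by
    intro s t hst'
    by_contra hne
    have h1 := hmax _ ⟨_, hst.ep s t hst' x hxM, hne, hlam.Ep s t⟩
    simp only [Int.cast_add, Int.cast_ite, Int.cast_one, Int.cast_zero, add_mul, ite_mul,
      one_mul, zero_mul, Finset.sum_add_distrib, Finset.sum_ite_eq', Finset.mem_univ,
      if_true] at h1
    have := hsl s
    have := hsl t
    linarith
  have hA : ∀ s t, blk s = blk t → sl s < sl t → b.Am idx s t x = 0 := by
    intro s t hst' hlt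
    by_contra hne
    have h1 := hmax _ ⟨_, hst.am s t hst' x hxM, hne, hlam.Am s t⟩
    simp only [Int.cast_add, Int.cast_sub, Int.cast_ite, Int.cast_one, Int.cast_zero, add_mul,
      sub_mul, ite_mul, one_mul, zero_mul, Finset.sum_add_distrib, Finset.sum_sub_distrib,
      Finset.sum_ite_eq', Finset.mem_univ, if_true] at h1
    linarith
  have haf : ∀ a s, b.af idx a s x = 0 := by
    intro a s
    refine af_eq_zero b idx (block blk (blk s)) x ?_ (fun a c => hC x hxM _ a c) s ?_ a
    · intro u hu t ht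
      simp only [block, Finset.mem_filter, Finset.mem_univ, true_and] at hu ht
      exact hE u t (hu.trans ht.symm)
    · simp [block]
  -- the weight is non-negative
  obtain ⟨J, hJ⟩ := exists_repr_ne b hx
  have hJf : ∀ a s, idx (a, Sum.inr s) ∉ J := by
    intro a s hmem
    have h1 := repr_num b (idx (a, Sum.inr s)) x J
    have h2 : b.an (idx (a, Sum.inr s)) x = 0 := haf a s
    rw [h2, map_zero, if_pos hmem] at h1
    exact hJ (by simpa using h1.symm)
  have hpos : ∀ s, (((Finset.univ.filter fun a : Fin n => idx (a, Sum.inl s) ∈ J).card : ℕ) : ℤ) =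
      lam s := by
    intro s
    rw [← hlam.wtJ hJ s]
    unfold wtJ
    rw [Finset.filter_false_of_mem (p := fun a : Fin n => idx (a, Sum.inr s) ∈ J)
      (fun a _ => hJf a s)]
    simp
  refine ⟨x, hxM, hx, haf, fun s => (Finset.univ.filter fun a : Fin n =>
    idx (a, Sum.inl s) ∈ J).card, ?_, ?_⟩
  · have : (fun s => (((Finset.univ.filter fun a : Fin n => idx (a, Sum.inl s) ∈ J).card : ℕ) : ℤ))
      = lam := funext hpos
    rw [this]
    exact hlam
  · intro s t hblk hlt
    have hne : s ≠ t := by rintro rfl; exact lt_irrefl _ hlt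
    have h1 : ip b x (b.Am idx s t (b.Am idx t s x)) = ((nsq b (b.Am idx t s x) : ℝ) : ℂ) := by
      rw [← ip_self]
      exact (adj_A b idx t s x _).symm
    have h2 : b.Am idx s t (b.Am idx t s x) = ((lam s - lam t : ℤ) : ℂ) • x := by
      rw [cm_apply, hA s t hblk hlt, map_zero, zero_add, cm_A_A, if_pos rfl, if_pos rfl,
        LinearMap.sub_apply, hlam s, hlam t, ← sub_smul]
      push_cast
      rfl
    rw [h2, ip_smul_right, ip_self] at h1
    have h3 : ((lam s - lam t : ℤ) : ℝ) * nsq b x = nsq b (b.Am idx t s x) := by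
      exact_mod_cast h1
    have h4 : 0 < nsq b x := lt_of_le_of_ne (nsq_nonneg b x) fun h => hx (nsq_eq_zero b h.symm)
    have h5 : 0 ≤ ((lam s - lam t : ℤ) : ℝ) := by
      by_contra hlt'
      push Not at hlt'
      have := mul_neg_of_neg_of_pos hlt' h4
      have := nsq_nonneg b (b.Am idx t s x)
      linarith
    have h6 : 0 ≤ lam s - lam t := by exact_mod_cast h5
    have h7 := hpos s
    have h8 := hpos t
    show (Finset.univ.filter fun a : Fin n => idx (a, Sum.inl t) ∈ J).card ≤
      (Finset.univ.filter fun a : Fin n => idx (a, Sum.inl s) ∈ J).card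
    omega

end Pool.Agent.Helper60.GTC.Fock
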