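import Mathlib

/-!
# Fermionic Fock spaces

Creation and annihilation operators with the canonical anticommutation relations, the
Hermitian form for which the monomials are orthonormal; the exterior algebra of a space with
a basis is an example.
-/

set_option autoImplicit false
set_option linter.unusedSectionVars false

namespace Pool.Agent.Helper60.GTC

open Module

/-- A Fock space: basis `B` indexed by finite sets of modes, creation operators `cr i` and
annihilation operators `an i`. -/
structure Fock (I : Type*) [DecidableEq I] (E : Type*) [AddCommGroup E] [Module ℂ E] where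
  B : Basis (Finset I) ℂ E
  cr : I → Module.End ℂ E
  an : I → Module.End ℂ E
  an_cr : ∀ i j, an i * cr j = (if i = j then 1 else 0) - cr j * an i
  cr_cr : ∀ i j, cr i * cr j = -(cr j * cr i)
  an_an : ∀ i j, an i * an j = -(an j * an i)
  cr_basis_mem : ∀ i s, i ∈ s → cr i (B s) = 0
  cr_basis : ∀ i s, i ∉ s → ∃ c : ℤˣ, cr i (B s) = ((c : ℤ) : ℂ) • B (insert i s)
  an_basis_not_mem : ∀ i s, i ∉ s → an i (B s) = 0

namespace Fock

variable {I : Type*} [DecidableEq I] {E : Type*} [AddCommGroup E] [Module ℂ E] (b : Fock I E)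

lemma an_cr_apply (i j : I) (x : E) :
    b.an i (b.cr j x) = (if i = j then (1 : ℂ) else 0) • x - b.cr j (b.an i x) := by
  have h := congrArg (fun T : Module.End ℂ E => T x) (b.an_cr i j)
  simp only [Module.End.mul_apply, LinearMap.sub_apply] at h
  rw [h]
  split_ifs <;> simp

lemma units_sq (c : ℤˣ) : ((c : ℤ) : ℂ) * ((c : ℤ) : ℂ) = 1 := by
  rcases Int.units_eq_one_or c with rfl | rfl <;> simp

lemma an_basis (i : I) (s : Finset I) (h : i ∉ s) (c : ℤˣ)
    (hc : b.cr i (b.B s) = ((c : ℤ) : ℂ) • b.B (insert i s)) :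
    b.an i (b.B (insert i s)) = ((c : ℤ) : ℂ) • b.B s := by
  have h1 : b.B (insert i s) = ((c : ℤ) : ℂ) • b.cr i (b.B s) := by
    rw [hc, smul_smul, units_sq, one_smul]
  rw [h1, map_smul, an_cr_apply, if_pos rfl, one_smul, b.an_basis_not_mem i s h, map_zero,
    sub_zero]

/-- number operators on monomials -/
lemma num_basis (i : I) (s : Finset I) :
    b.cr i (b.an i (b.B s)) = if i ∈ s then b.B s else 0 := by
  split_ifs with h
  · obtain ⟨c, hc⟩ := b.cr_basis i (s.erase i) (Finset.notMem_erase i s)
    have h1 := b.an_basis i (s.erase i) (Finset.notMem_erase i s) c hc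
    rw [Finset.insert_erase h] at h1 hc
    rw [h1, map_smul, hc, smul_smul, units_sq, one_smul]
  · rw [b.an_basis_not_mem i s h, map_zero]

/-! ### The Hermitian form -/

variable [Fintype I]

/-- The Hermitian form with orthonormal basis `b.B`. -/
noncomputable def ip (x y : E) : ℂ :=
  ∑ s : Finset I, (starRingEnd ℂ) (b.B.repr x s) * b.B.repr y s

lemma ip_add_left (x y z : E) : ip b (x + y) z = ip b x z + ip b y z := by
  simp [ip, add_mul, Finset.sum_add_distrib]

lemma ip_add_right (x y z : E) : ip b x (y + z) = ip b x y + ip b x z := by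
  simp [ip, mul_add, Finset.sum_add_distrib]

lemma ip_smul_left (c : ℂ) (x y : E) :
    ip b (c • x) y = (starRingEnd ℂ) c * ip b x y := by
  simp [ip, Finset.mul_sum, mul_assoc]

lemma ip_smul_right (c : ℂ) (x y : E) :
    ip b x (c • y) = c * ip b x y := by
  simp only [ip, map_smul, Finsupp.smul_apply, smul_eq_mul, Finset.mul_sum]
  exact Finset.sum_congr rfl fun _ _ => by ring

lemma ip_zero_left (y : E) : ip b 0 y = 0 := by simp [ip]

lemma ip_zero_right (y : E) : ip b y 0 = 0 := by simp [ip]

lemma ip_neg_left (x y : E) : ip b (-x) y = - ip b x y := by simp [ip]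

lemma ip_sub_left (x y z : E) : ip b (x - y) z = ip b x z - ip b y z := by
  simp [ip, sub_mul, Finset.sum_sub_distrib]

lemma ip_sub_right (x y z : E) : ip b x (y - z) = ip b x y - ip b x z := by
  simp [ip, mul_sub, Finset.sum_sub_distrib]

lemma ip_sum_left {ι : Type*} (s : Finset ι) (f : ι → E)
    (y : E) : ip b (∑ i ∈ s, f i) y = ∑ i ∈ s, ip b (f i) y := by
  classical
  induction s using Finset.induction_on with
  | empty => simp [ip_zero_left]
  | insert a s ha ih => rw [Finset.sum_insert ha, Finset.sum_insert ha, ip_add_left, ih]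

lemma ip_sum_right {ι : Type*} (s : Finset ι) (f : ι → E)
    (y : E) : ip b y (∑ i ∈ s, f i) = ∑ i ∈ s, ip b y (f i) := by
  classical
  induction s using Finset.induction_on with
  | empty => simp [ip_zero_right]
  | insert a s ha ih => rw [Finset.sum_insert ha, Finset.sum_insert ha, ip_add_right, ih]

lemma ip_conj (x y : E) : (starRingEnd ℂ) (ip b x y) = ip b y x := by
  simp only [ip, map_sum, map_mul, Complex.conj_conj]
  exact Finset.sum_congr rfl fun _ _ => by ring

/-- squared norm -/
noncomputable def nsq (x : E) : ℝ :=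
  ∑ s : Finset I, Complex.normSq (b.B.repr x s)

lemma ip_self (x : E) : ip b x x = ((nsq b x : ℝ) : ℂ) := by
  simp only [ip, nsq, Complex.ofReal_sum, Complex.normSq_eq_conj_mul_self]

lemma nsq_nonneg (x : E) : 0 ≤ nsq b x :=
  Finset.sum_nonneg fun _ _ => Complex.normSq_nonneg _

lemma nsq_eq_zero {x : E} (h : nsq b x = 0) : x = 0 := by
  unfold nsq at h
  rw [Finset.sum_eq_zero_iff_of_nonneg fun _ _ => Complex.normSq_nonneg _] at h
  apply b.B.repr.injective
  ext s
  have := h s (Finset.mem_univ _)
  rw [Complex.normSq_eq_zero] at this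
  simpa using this

lemma ip_basis (s t : Finset I) :
    ip b (b.B s) (b.B t) = if s = t then 1 else 0 := by
  simp only [ip, Basis.repr_self]
  rw [Finset.sum_eq_single s]
  · by_cases h : s = t
    · simp [h]
    · simp [h]
  · intro u _ hu
    simp [Finsupp.single_apply, Ne.symm hu]
  · intro h; exact absurd (Finset.mem_univ _) h

/-- `T'` is the adjoint of `T` -/
def IsAdj (T T' : Module.End ℂ (E)) : Prop :=
  ∀ x y, ip b (T x) y = ip b x (T' y)

variable {b}

lemma IsAdj.of_basis {T T' : Module.End ℂ (E)}
    (h : ∀ s t, ip b (T (b.B s)) (b.B t) =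
      ip b (b.B s) (T' (b.B t))) : IsAdj b T T' := by
  intro x y
  rw [← b.B.sum_repr x, ← b.B.sum_repr y]
  simp only [map_sum, map_smul, ip_sum_left, ip_sum_right, ip_smul_left, ip_smul_right, h]

lemma IsAdj.add {T T' U U' : Module.End ℂ (E)} (h : IsAdj b T T')
    (k : IsAdj b U U') : IsAdj b (T + U) (T' + U') := by
  intro x y
  simp only [LinearMap.add_apply, ip_add_left, ip_add_right, h x y, k x y]

lemma IsAdj.sub {T T' U U' : Module.End ℂ (E)} (h : IsAdj b T T')
    (k : IsAdj b U U') : IsAdj b (T - U) (T' - U') := by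
  intro x y
  simp only [LinearMap.sub_apply, ip_sub_left, ip_sub_right, h x y, k x y]

lemma IsAdj.mul {T T' U U' : Module.End ℂ (E)} (h : IsAdj b T T')
    (k : IsAdj b U U') : IsAdj b (T * U) (U' * T') := by
  intro x y
  rw [Module.End.mul_apply, Module.End.mul_apply, h, k]

lemma IsAdj.sum {ι : Type*} (s : Finset ι) {T T' : ι → Module.End ℂ (E)}
    (h : ∀ i ∈ s, IsAdj b (T i) (T' i)) : IsAdj b (∑ i ∈ s, T i) (∑ i ∈ s, T' i) := by
  intro x y
  simp only [LinearMap.sum_apply, ip_sum_left, ip_sum_right]
  exact Finset.sum_congr rfl fun i hi => h i hi x y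

lemma IsAdj.symm {T T' : Module.End ℂ (E)} (h : IsAdj b T T') :
    IsAdj b T' T := by
  intro x y
  rw [← ip_conj, ← h, ip_conj]

lemma IsAdj.unique {T T' T'' : Module.End ℂ (E)} (h : IsAdj b T T')
    (k : IsAdj b T T'') : T' = T'' := by
  refine LinearMap.ext fun y => ?_
  have h1 : ∀ x, ip b x (T' y - T'' y) = 0 := by
    intro x
    rw [ip_sub_right, ← h, ← k, sub_self]
  have h2 := h1 (T' y - T'' y)
  rw [ip_self] at h2
  have h3 := nsq_eq_zero b (by exact_mod_cast h2 : nsq b (T' y - T'' y) = 0)
  exact sub_eq_zero.mp h3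

variable (b)

lemma adj_cr_an (i : I) : IsAdj b (b.cr i) (b.an i) := by
  refine IsAdj.of_basis fun s t => ?_
  by_cases hs : i ∈ s
  · rw [b.cr_basis_mem i s hs, ip_zero_left]
    by_cases ht : i ∈ t
    · obtain ⟨c, hc⟩ := b.cr_basis i (t.erase i) (Finset.notMem_erase i t)
      have h1 := b.an_basis i (t.erase i) (Finset.notMem_erase i t) c hc
      rw [Finset.insert_erase ht] at h1
      rw [h1, ip_smul_right, ip_basis, if_neg, mul_zero]
      rintro rfl
      exact Finset.notMem_erase i t hs
    · rw [b.an_basis_not_mem i t ht, ip_zero_right]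
  · obtain ⟨c, hc⟩ := b.cr_basis i s hs
    rw [hc, ip_smul_left, ip_basis]
    by_cases ht : insert i s = t
    · subst ht
      rw [b.an_basis i s hs c hc, ip_smul_right, ip_basis]
      simp
    · rw [if_neg ht, mul_zero]
      by_cases ht2 : i ∈ t
      · obtain ⟨c', hc'⟩ := b.cr_basis i (t.erase i) (Finset.notMem_erase i t)
        have h1 := b.an_basis i (t.erase i) (Finset.notMem_erase i t) c' hc'
        rw [Finset.insert_erase ht2] at h1
        rw [h1, ip_smul_right, ip_basis, if_neg, mul_zero]
        rintro rfl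
        exact ht (Finset.insert_erase ht2)
      · rw [b.an_basis_not_mem i t ht2, ip_zero_right]

lemma adj_an_cr (i : I) : IsAdj b (b.an i) (b.cr i) := (adj_cr_an b i).symm


end Fock

/-! ### The exterior algebra -/

section Ext

variable {W : Type*} [AddCommGroup W] [Module ℂ W] {I : Type*} [LinearOrder I]
  (b : Basis I ℂ W)

/-- creation operator: left multiplication by `ι (b i)` -/
noncomputable def cr (i : I) : Module.End ℂ (ExteriorAlgebra ℂ W) :=
  LinearMap.mulLeft ℂ (ExteriorAlgebra.ι ℂ (b i))

/-- annihilation operator: contraction with the `i`-th coordinate form -/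
noncomputable def an (i : I) : Module.End ℂ (ExteriorAlgebra ℂ W) :=
  CliffordAlgebra.contractLeft (Q := (0 : QuadraticForm ℂ W)) (b.coord i)

lemma cr_apply (i : I) (x : ExteriorAlgebra ℂ W) :
    cr b i x = ExteriorAlgebra.ι ℂ (b i) * x := rfl

lemma an_cr_apply (i j : I) (x : ExteriorAlgebra ℂ W) :
    an b i (cr b j x) = (if i = j then (1 : ℂ) else 0) • x - cr b j (an b i x) := by
  have h := CliffordAlgebra.contractLeft_ι_mul (Q := (0 : QuadraticForm ℂ W)) (b.coord i)
    (b j) x
  have h2 : (b.coord i) (b j) = if i = j then (1 : ℂ) else 0 := by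
    simp [Basis.coord_apply, Finsupp.single_apply, eq_comm]
  rw [h2] at h
  exact h

lemma an_cr (i j : I) :
    an b i * cr b j = (if i = j then 1 else 0) - cr b j * an b i := by
  refine LinearMap.ext fun x => ?_
  rw [Module.End.mul_apply, an_cr_apply]
  split_ifs <;> simp

lemma cr_cr (i j : I) : cr b i * cr b j = -(cr b j * cr b i) := by
  refine LinearMap.ext fun x => ?_
  simp only [Module.End.mul_apply, LinearMap.neg_apply, cr_apply, ← mul_assoc]
  rw [← neg_mul]
  congr 1
  have := ExteriorAlgebra.ι_add_mul_swap (R := ℂ) (b i) (b j)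
  exact eq_neg_of_add_eq_zero_left this

lemma an_an (i j : I) : an b i * an b j = -(an b j * an b i) := by
  refine LinearMap.ext fun x => ?_
  exact CliffordAlgebra.contractLeft_comm (Q := (0 : QuadraticForm ℂ W)) (b.coord i)
    (b.coord j) x

lemma basis_singleton (i : I) : b.ExteriorAlgebra {i} = ExteriorAlgebra.ι ℂ (b i) := by
  rw [ExteriorAlgebra.basis_apply_ofCard b (Finset.card_singleton i)]
  unfold ExteriorAlgebra.ιMulti_family
  rw [ExteriorAlgebra.ιMulti_apply]
  simp only [List.ofFn_succ, List.ofFn_zero, List.prod_cons, List.prod_nil, mul_one]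
  have h : (Set.powersetCard.ofFinEmbEquiv.symm (Set.powersetCard.ofCard
    (Finset.card_singleton i))) 0 ∈ ({i} : Finset I) :=
    Finset.orderEmbOfFin_mem ({i} : Finset I) (Finset.card_singleton i) 0
  rw [Finset.mem_singleton] at h
  rw [Function.comp_apply, h]

lemma cr_basis_mem (i : I) (s : Finset I) (h : i ∈ s) : cr b i (b.ExteriorAlgebra s) = 0 := by
  have h1 := ExteriorAlgebra.basis_mul_of_not_disjoint b
    (Set.powersetCard.ofCard (rfl : ({i} : Finset I).card = ({i} : Finset I).card))
    (Set.powersetCard.ofCard (rfl : s.card = s.card)) (by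
      simpa [Set.powersetCard.ofCard] using h)
  have h2 : (Set.powersetCard.ofCard (rfl : ({i} : Finset I).card = ({i} : Finset I).card)).val =
    {i} := rfl
  have h3 : (Set.powersetCard.ofCard (rfl : s.card = s.card)).val = s := rfl
  rw [h2, h3, basis_singleton] at h1
  exact h1

lemma cr_basis (i : I) (s : Finset I) (h : i ∉ s) :
    ∃ c : ℤˣ, cr b i (b.ExteriorAlgebra s) = ((c : ℤ) : ℂ) • b.ExteriorAlgebra (insert i s) := by
  have hd : Disjoint ({i} : Finset I) s := by simpa using h
  have h1 := ExteriorAlgebra.basis_mul_of_disjoint b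
    (Set.powersetCard.ofCard (rfl : ({i} : Finset I).card = ({i} : Finset I).card))
    (Set.powersetCard.ofCard (rfl : s.card = s.card)) hd
  have h2 : (Set.powersetCard.ofCard (rfl : ({i} : Finset I).card = ({i} : Finset I).card)).val =
    {i} := rfl
  have h3 : (Set.powersetCard.ofCard (rfl : s.card = s.card)).val = s := rfl
  rw [h2, h3, basis_singleton] at h1
  have h4 : (Set.powersetCard.disjUnion
      (s := Set.powersetCard.ofCard (rfl : ({i} : Finset I).card = ({i} : Finset I).card))
      (t := Set.powersetCard.ofCard (rfl : s.card = s.card)) hd).val = insert i s := by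
    ext x
    simp [Set.powersetCard.disjUnion, Set.powersetCard.ofCard]
  rw [h4] at h1
  refine ⟨(Set.powersetCard.permOfDisjoint
    (s := Set.powersetCard.ofCard (rfl : ({i} : Finset I).card = ({i} : Finset I).card))
    (t := Set.powersetCard.ofCard (rfl : s.card = s.card)) hd).sign, h1.trans ?_⟩
  rw [Units.smul_def, ← Int.cast_smul_eq_zsmul ℂ]

lemma an_basis_not_mem (i : I) (s : Finset I) (h : i ∉ s) :
    an b i (b.ExteriorAlgebra s) = 0 := by
  induction s using Finset.induction_on with
  | empty =>
    have h0 : b.ExteriorAlgebra ∅ = 1 := by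
      rw [ExteriorAlgebra.basis_apply_ofCard b (Finset.card_empty)]
      unfold ExteriorAlgebra.ιMulti_family
      rw [ExteriorAlgebra.ιMulti_apply]
      simp
    rw [h0]
    exact CliffordAlgebra.contractLeft_one (Q := (0 : QuadraticForm ℂ W)) (b.coord i)
  | insert j s hj ih =>
    rw [Finset.mem_insert, not_or] at h
    obtain ⟨c, hc⟩ := cr_basis b j s hj
    have hc0 : ((c : ℤ) : ℂ) ≠ 0 := by
      rcases Int.units_eq_one_or c with rfl | rfl <;> simp
    have h1 : b.ExteriorAlgebra (insert j s) = ((c : ℤ) : ℂ)⁻¹ • cr b j (b.ExteriorAlgebra s) := by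
      rw [hc, smul_smul, inv_mul_cancel₀ hc0, one_smul]
    rw [h1, map_smul, an_cr_apply, if_neg h.1, ih h.2]
    simp


/-- The Fock space structure of the exterior algebra. -/
noncomputable def fockE : Fock I (ExteriorAlgebra ℂ W) where
  B := b.ExteriorAlgebra
  cr := cr b
  an := an b
  an_cr := an_cr b
  cr_cr := cr_cr b
  an_an := an_an b
  cr_basis_mem := cr_basis_mem b
  cr_basis := cr_basis b
  an_basis_not_mem := an_basis_not_mem b

end Ext

end Pool.Agent.Helper60.GTC
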