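import Pool.Agent.Helper60.GTC.Fock

/-!
# Harmonic elements and the fermionic identity

The basis of `W = Vⁿ` is indexed by `I ≃ Fin n × (S ⊕ S)` (`e_s^a`, `f_s^a`).
-/

set_option autoImplicit false
set_option linter.unusedSectionVars false

namespace Pool.Agent.Helper60.GTC.Fock

open Module

variable {I : Type*} [DecidableEq I] {E : Type*} [AddCommGroup E] [Module ℂ E] (b : Fock I E)
  {n : ℕ} {S : Type*} [DecidableEq S] (idx : Fin n × (S ⊕ S) ≃ I)

def ce (a : Fin n) (s : S) := b.cr (idx (a, Sum.inl s))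
def cf (a : Fin n) (s : S) := b.cr (idx (a, Sum.inr s))
def ae (a : Fin n) (s : S) := b.an (idx (a, Sum.inl s))
def af (a : Fin n) (s : S) := b.an (idx (a, Sum.inr s))

section CAR

variable (a c : Fin n) (s t : S)

lemma ae_ce : ae b idx a s * ce b idx c t =
    (if a = c ∧ s = t then 1 else 0) - ce b idx c t * ae b idx a s := by
  unfold ae ce
  rw [an_cr]
  simp

lemma af_cf : af b idx a s * cf b idx c t =
    (if a = c ∧ s = t then 1 else 0) - cf b idx c t * af b idx a s := by
  unfold af cf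
  rw [an_cr]
  simp

lemma ae_cf : ae b idx a s * cf b idx c t = - (cf b idx c t * ae b idx a s) := by
  unfold ae cf
  rw [an_cr]
  simp

lemma af_ce : af b idx a s * ce b idx c t = - (ce b idx c t * af b idx a s) := by
  unfold af ce
  rw [an_cr]
  simp

lemma ce_ce : ce b idx a s * ce b idx c t = - (ce b idx c t * ce b idx a s) := b.cr_cr _ _
lemma cf_cf : cf b idx a s * cf b idx c t = - (cf b idx c t * cf b idx a s) := b.cr_cr _ _
lemma cf_ce : cf b idx a s * ce b idx c t = - (ce b idx c t * cf b idx a s) := b.cr_cr _ _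
lemma ce_cf : ce b idx a s * cf b idx c t = - (cf b idx c t * ce b idx a s) := b.cr_cr _ _
lemma ae_ae : ae b idx a s * ae b idx c t = - (ae b idx c t * ae b idx a s) := b.an_an _ _
lemma af_af : af b idx a s * af b idx c t = - (af b idx c t * af b idx a s) := b.an_an _ _
lemma ae_af : ae b idx a s * af b idx c t = - (af b idx c t * ae b idx a s) := b.an_an _ _
lemma af_ae : af b idx a s * ae b idx c t = - (ae b idx c t * af b idx a s) := b.an_an _ _

end CAR

/-- `∑_a e_s^a ∂/∂f_t^a` -/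
def R (s t : S) : Module.End ℂ E :=
  ∑ a, ce b idx a s * af b idx a t

/-- `∑_a f_t^a ∂/∂e_s^a`, the adjoint of `R s t` -/
def Rs (s t : S) : Module.End ℂ E :=
  ∑ a, cf b idx a t * ae b idx a s

/-- raising operator of `sp` -/
def Ep (s t : S) : Module.End ℂ E := R b idx s t + R b idx t s

/-- lowering operator of `sp` -/
def Em (s t : S) : Module.End ℂ E := Rs b idx s t + Rs b idx t s

/-- operators of `gl(L) ⊆ sp` -/
def Am (s t : S) : Module.End ℂ E :=
  ∑ a, (ce b idx a s * ae b idx a t - cf b idx a t * af b idx a s)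

/-- `∑_{s ∈ B} e_s^a f_s^c` -/
def Pop (B : Finset S) (a c : Fin n) : Module.End ℂ E :=
  ∑ s ∈ B, ce b idx a s * cf b idx c s

/-- `∑_{s ∈ B} ∂/∂f_s^c ∂/∂e_s^a`, the adjoint of `Pop B a c` -/
def Qop (B : Finset S) (a c : Fin n) : Module.End ℂ E :=
  ∑ s ∈ B, af b idx c s * ae b idx a s

/-- multiplication by the invariant class of the block `B` and the slots `a`, `c` -/
def Dop (B : Finset S) (a c : Fin n) : Module.End ℂ E :=
  Pop b idx B a c + Pop b idx B c a

/-- contraction, the adjoint of `Dop` -/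
def Cop (B : Finset S) (a c : Fin n) : Module.End ℂ E :=
  Qop b idx B a c + Qop b idx B c a

lemma term_identity (a c : Fin n) (s t : S) :
    (cf b idx a t * ae b idx a s) * (ce b idx c t * af b idx c s) +
      (ce b idx c t * cf b idx a t) * (af b idx c s * ae b idx a s) =
      if a = c ∧ s = t then cf b idx a t * af b idx c s else 0 := by
  have h1 : (cf b idx a t * ae b idx a s) * (ce b idx c t * af b idx c s) =
      cf b idx a t * (ae b idx a s * ce b idx c t) * af b idx c s := by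
    simp only [mul_assoc]
  have h2 : cf b idx a t * (ce b idx c t * ae b idx a s) * af b idx c s =
      (cf b idx a t * ce b idx c t) * (ae b idx a s * af b idx c s) := by
    simp only [mul_assoc]
  rw [h1, ae_ce, mul_sub, sub_mul, h2, cf_ce, ae_af, neg_mul_neg, sub_add_cancel]
  split_ifs <;> simp

lemma sum_identity (B : Finset S) :
    ∑ s ∈ B, ∑ t ∈ B, Rs b idx s t * R b idx t s +
      ∑ a, ∑ c, Pop b idx B c a * Qop b idx B a c =
      ∑ s ∈ B, ∑ a, cf b idx a s * af b idx a s := by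
  have h1 : ∑ s ∈ B, ∑ t ∈ B, Rs b idx s t * R b idx t s =
      ∑ s ∈ B, ∑ t ∈ B, ∑ a, ∑ c,
        (cf b idx a t * ae b idx a s) * (ce b idx c t * af b idx c s) := by
    refine Finset.sum_congr rfl fun s _ => Finset.sum_congr rfl fun t _ => ?_
    unfold Rs R
    rw [Finset.sum_mul_sum]
  have h2 : ∑ a, ∑ c, Pop b idx B c a * Qop b idx B a c =
      ∑ s ∈ B, ∑ t ∈ B, ∑ a, ∑ c,
        (ce b idx c t * cf b idx a t) * (af b idx c s * ae b idx a s) := by
    have h3 : ∀ a c, Pop b idx B c a * Qop b idx B a c = ∑ s ∈ B, ∑ t ∈ B,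
        (ce b idx c t * cf b idx a t) * (af b idx c s * ae b idx a s) := by
      intro a c
      unfold Pop Qop
      rw [Finset.sum_mul_sum, Finset.sum_comm]
    simp only [h3]
    rw [Finset.sum_congr rfl fun a _ => Finset.sum_comm, Finset.sum_comm]
    refine Finset.sum_congr rfl fun s _ => ?_
    rw [Finset.sum_congr rfl fun a _ => Finset.sum_comm, Finset.sum_comm]
  rw [h1, h2]
  simp only [← Finset.sum_add_distrib, term_identity]
  refine Finset.sum_congr rfl fun s hs => ?_
  rw [Finset.sum_comm]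
  refine Finset.sum_congr rfl fun a _ => ?_
  rw [Finset.sum_comm, Finset.sum_eq_single a, Finset.sum_eq_single s]
  · simp
  · intro t _ ht
    rw [if_neg]
    rintro ⟨-, rfl⟩
    exact ht rfl
  · intro h; exact absurd hs h
  · intro c _ hc
    refine Finset.sum_eq_zero fun t _ => ?_
    rw [if_neg]
    rintro ⟨rfl, -⟩
    exact hc rfl
  · intro h; exact absurd (Finset.mem_univ _) h

lemma main_identity (B : Finset S) :
    ∑ s ∈ B, ∑ t ∈ B, Em b idx s t * Ep b idx s t +
      ∑ a, ∑ c, Dop b idx B a c * Cop b idx B a c =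
    (2 : ℂ) • (∑ s ∈ B, ∑ a, cf b idx a s * af b idx a s +
      ∑ s ∈ B, ∑ t ∈ B, Rs b idx s t * R b idx s t +
      ∑ a, ∑ c, Pop b idx B a c * Qop b idx B a c) := by
  have h1 : ∑ s ∈ B, ∑ t ∈ B, Em b idx s t * Ep b idx s t =
      (2 : ℂ) • ∑ s ∈ B, ∑ t ∈ B, Rs b idx s t * R b idx s t +
      (2 : ℂ) • ∑ s ∈ B, ∑ t ∈ B, Rs b idx s t * R b idx t s := by
    unfold Em Ep
    simp only [add_mul, mul_add, Finset.sum_add_distrib]
    rw [Finset.sum_comm (f := fun s t => Rs b idx t s * R b idx s t),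
      Finset.sum_comm (f := fun s t => Rs b idx t s * R b idx t s), two_smul, two_smul]
    abel
  have h2 : ∑ a, ∑ c, Dop b idx B a c * Cop b idx B a c =
      (2 : ℂ) • ∑ a, ∑ c, Pop b idx B a c * Qop b idx B a c +
      (2 : ℂ) • ∑ a, ∑ c, Pop b idx B c a * Qop b idx B a c := by
    unfold Dop Cop
    simp only [add_mul, mul_add, Finset.sum_add_distrib]
    rw [Finset.sum_comm (f := fun a c => Pop b idx B a c * Qop b idx B c a),
      Finset.sum_comm (f := fun a c => Pop b idx B c a * Qop b idx B c a), two_smul, two_smul]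
    abel
  rw [h1, h2, ← sum_identity b idx B]
  simp only [smul_add]
  abel

variable [Fintype I]

lemma adj_R (s t : S) : IsAdj b (R b idx s t) (Rs b idx s t) :=
  IsAdj.sum _ fun _ _ => (adj_cr_an b _).mul (adj_an_cr b _)

lemma adj_Q (B : Finset S) (a c : Fin n) : IsAdj b (Qop b idx B a c) (Pop b idx B a c) :=
  IsAdj.sum _ fun _ _ => (adj_an_cr b _).mul (adj_an_cr b _)

lemma adj_Ep (s t : S) : IsAdj b (Ep b idx s t) (Em b idx s t) :=
  (adj_R b idx s t).add (adj_R b idx t s)

lemma adj_C (B : Finset S) (a c : Fin n) : IsAdj b (Cop b idx B a c) (Dop b idx B a c) :=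
  (adj_Q b idx B a c).add (adj_Q b idx B c a)

lemma adj_A (s t : S) : IsAdj b (Am b idx s t) (Am b idx t s) :=
  IsAdj.sum _ fun _ _ => ((adj_cr_an b _).mul (adj_an_cr b _)).sub
    ((adj_cr_an b _).mul (adj_an_cr b _))

/-- A harmonic vector killed by the raising operators does not involve the `f`'s. -/
theorem af_eq_zero (B : Finset S) (x : E)
    (hE : ∀ s ∈ B, ∀ t ∈ B, Ep b idx s t x = 0) (hC : ∀ a c, Cop b idx B a c x = 0) :
    ∀ s ∈ B, ∀ a, af b idx a s x = 0 := by
  have h0 := congrArg (fun T : Module.End ℂ E => ip b x (T x))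
    (main_identity b idx B)
  simp only [LinearMap.add_apply, LinearMap.sum_apply, LinearMap.smul_apply,
    Module.End.mul_apply, ip_add_right, ip_smul_right, ip_sum_right] at h0
  have h1 : ∑ s ∈ B, ∑ t ∈ B, ip b x (Em b idx s t (Ep b idx s t x)) = 0 :=
    Finset.sum_eq_zero fun s hs => Finset.sum_eq_zero fun t ht => by
      rw [hE s hs t ht, map_zero, ip_zero_right]
  have h2 : ∑ a, ∑ c, ip b x (Dop b idx B a c (Cop b idx B a c x)) = 0 :=
    Finset.sum_eq_zero fun a _ => Finset.sum_eq_zero fun c _ => by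
      rw [hC a c, map_zero, ip_zero_right]
  have h3 : ∀ s a, ip b x (cf b idx a s (af b idx a s x)) =
      ((nsq b (af b idx a s x) : ℝ) : ℂ) := by
    intro s a
    rw [← ip_self]
    exact (adj_an_cr b _ x _).symm
  have h4 : ∀ s t, ip b x (Rs b idx s t (R b idx s t x)) =
      ((nsq b (R b idx s t x) : ℝ) : ℂ) := by
    intro s t
    rw [← ip_self]
    exact (adj_R b idx s t x _).symm
  have h5 : ∀ a c, ip b x (Pop b idx B a c (Qop b idx B a c x)) =
      ((nsq b (Qop b idx B a c x) : ℝ) : ℂ) := by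
    intro a c
    rw [← ip_self]
    exact (adj_Q b idx B a c x _).symm
  rw [h1, h2] at h0
  simp only [h3, h4, h5] at h0
  have h6 : (∑ s ∈ B, ∑ a, nsq b (af b idx a s x)) +
      (∑ s ∈ B, ∑ t ∈ B, nsq b (R b idx s t x)) +
      (∑ a, ∑ c, nsq b (Qop b idx B a c x)) = 0 := by
    have : (2 : ℂ) * (((∑ s ∈ B, ∑ a, nsq b (af b idx a s x)) +
      (∑ s ∈ B, ∑ t ∈ B, nsq b (R b idx s t x)) +
      (∑ a, ∑ c, nsq b (Qop b idx B a c x)) : ℝ) : ℂ) = 0 := by
      push_cast
      rw [← h0]; ring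
    have h7 := (mul_eq_zero.mp this).resolve_left two_ne_zero
    exact_mod_cast h7
  have hn1 : 0 ≤ ∑ s ∈ B, ∑ a, nsq b (af b idx a s x) :=
    Finset.sum_nonneg fun _ _ => Finset.sum_nonneg fun _ _ => nsq_nonneg b _
  have hn2 : 0 ≤ ∑ s ∈ B, ∑ t ∈ B, nsq b (R b idx s t x) :=
    Finset.sum_nonneg fun _ _ => Finset.sum_nonneg fun _ _ => nsq_nonneg b _
  have hn3 : 0 ≤ ∑ a, ∑ c, nsq b (Qop b idx B a c x) :=
    Finset.sum_nonneg fun _ _ => Finset.sum_nonneg fun _ _ => nsq_nonneg b _
  have h8 : ∑ s ∈ B, ∑ a, nsq b (af b idx a s x) = 0 := by linarith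
  intro s hs a
  rw [Finset.sum_eq_zero_iff_of_nonneg fun _ _ => Finset.sum_nonneg fun _ _ => nsq_nonneg b _] at h8
  have h9 := h8 s hs
  rw [Finset.sum_eq_zero_iff_of_nonneg fun _ _ => nsq_nonneg b _] at h9
  exact nsq_eq_zero b (h9 a (Finset.mem_univ _))

end Pool.Agent.Helper60.GTC.Fock
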