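import Pool.Agent.Helper60.GTC.Extremal

/-!
# Reduction to harmonic subspaces
-/

set_option autoImplicit false
set_option linter.unusedSectionVars false

namespace Pool.Agent.Helper60.GTC.Fock

open Module

variable {I : Type*} [DecidableEq I] {E : Type*} [AddCommGroup E] [Module ℂ E] (b : Fock I E)

section perp

variable [Fintype I]

/-- orthogonal complement for the Hermitian form -/
def perp (D : Submodule ℂ E) : Submodule ℂ E where
  carrier := {y | ∀ x ∈ D, ip b x y = 0}
  add_mem' := by
    intro y z hy hz x hx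
    rw [ip_add_right, hy x hx, hz x hx, add_zero]
  zero_mem' := fun x _ => ip_zero_right b x
  smul_mem' := by
    intro c y hy x hx
    rw [ip_smul_right, hy x hx, mul_zero]

lemma mem_perp {D : Submodule ℂ E} {y : E} : y ∈ perp b D ↔ ∀ x ∈ D, ip b x y = 0 := Iff.rfl

/-- isometry with the standard Hermitian space -/
noncomputable def toEuc : E ≃ₗ[ℂ] EuclideanSpace ℂ (Finset I) :=
  b.B.equivFun ≪≫ₗ (WithLp.linearEquiv 2 ℂ (Finset I → ℂ)).symm

lemma inner_toEuc (x y : E) : inner ℂ (toEuc b x) (toEuc b y) = ip b x y := by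
  rw [PiLp.inner_apply]
  unfold ip toEuc
  refine Finset.sum_congr rfl fun s _ => ?_
  simp [RCLike.inner_apply, mul_comm]

lemma isCompl_perp (D : Submodule ℂ E) : IsCompl D (perp b D) := by
  constructor
  · rw [Submodule.disjoint_def]
    intro x hx hx'
    have h := hx' x hx
    rw [ip_self] at h
    exact nsq_eq_zero b (by exact_mod_cast h)
  · rw [Submodule.codisjoint_iff_exists_add_eq]
    intro x
    have h := (Submodule.isCompl_orthogonal
      (K := D.map (toEuc b).toLinearMap)).codisjoint
    rw [Submodule.codisjoint_iff_exists_add_eq] at h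
    obtain ⟨u, v, hu, hv, huv⟩ := h (toEuc b x)
    obtain ⟨u', hu', rfl⟩ := Submodule.mem_map.mp hu
    refine ⟨u', (toEuc b).symm v, hu', ?_, ?_⟩
    · intro w hw
      have h1 := (Submodule.mem_orthogonal _ _).mp hv (toEuc b w)
        (Submodule.mem_map_of_mem (f := (toEuc b).toLinearMap) hw)
      rw [← inner_toEuc, LinearEquiv.apply_symm_apply]
      exact h1
    · apply (toEuc b).injective
      rw [map_add, LinearEquiv.apply_symm_apply]
      exact huv

/-- orthogonal projection onto `perp D` -/
noncomputable def projP (D : Submodule ℂ E) : Module.End ℂ E :=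
  (perp b D).projection D (isCompl_perp b D).symm

lemma projP_mem (D : Submodule ℂ E) (x : E) : projP b D x ∈ perp b D :=
  Submodule.projection_apply_mem _ x

lemma sub_projP_mem (D : Submodule ℂ E) (x : E) : x - projP b D x ∈ D :=
  Submodule.sub_projection_mem _ x

lemma projP_eq_zero {D : Submodule ℂ E} {x : E} : projP b D x = 0 ↔ x ∈ D :=
  Submodule.projection_apply_eq_zero_iff _

/-- the projection commutes with operators preserving `D` together with their adjoints -/
lemma projP_comm {D : Submodule ℂ E} {T T' : Module.End ℂ E} (hT : IsAdj b T T')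
    (h1 : ∀ x ∈ D, T x ∈ D) (h2 : ∀ x ∈ D, T' x ∈ D) (x : E) :
    projP b D (T x) = T (projP b D x) := by
  have h3 : T (projP b D x) ∈ perp b D := by
    intro w hw
    rw [← hT.symm w (projP b D x)]
    exact projP_mem b D x _ (h2 w hw)
  have h4 : T (x - projP b D x) ∈ D := h1 _ (sub_projP_mem b D x)
  have h5 : T x = T (projP b D x) + T (x - projP b D x) := by rw [map_sub]; abel
  rw [h5, map_add, projP_eq_zero b |>.mpr h4, add_zero]
  exact Submodule.projection_apply_left (isCompl_perp b D).symm ⟨_, h3⟩

end perp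

/-! ### Diagonal operators -/

/-- the algebra automorphism scaling the modes -/
noncomputable def dg (χ : I → ℂ) : Module.End ℂ E :=
  b.B.constr ℂ fun J => (∏ i ∈ J, χ i) • b.B J

lemma dg_basis (χ : I → ℂ) (J : Finset I) : dg b χ (b.B J) = (∏ i ∈ J, χ i) • b.B J := by
  simp [dg]

lemma repr_dg (χ : I → ℂ) (x : E) (J : Finset I) :
    b.B.repr (dg b χ x) J = (∏ i ∈ J, χ i) * b.B.repr x J := by
  have h : (b.B.coord J).comp (dg b χ) = (∏ i ∈ J, χ i) • b.B.coord J := by
    refine b.B.ext fun K => ?_
    simp only [LinearMap.comp_apply, dg_basis, map_smul, LinearMap.smul_apply,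
      Basis.coord_apply, smul_eq_mul, Basis.repr_self]
    by_cases hK : K = J
    · rw [hK]
    · rw [Finsupp.single_eq_of_ne (Ne.symm hK)]; simp
  have h2 := LinearMap.congr_fun h x
  simpa using h2

lemma dg_cr (χ : I → ℂ) (i : I) : dg b χ * b.cr i = χ i • (b.cr i * dg b χ) := by
  refine b.B.ext fun J => ?_
  simp only [Module.End.mul_apply, LinearMap.smul_apply, dg_basis, map_smul]
  by_cases h : i ∈ J
  · rw [b.cr_basis_mem i J h]; simp
  · obtain ⟨c, hc⟩ := b.cr_basis i J h
    rw [hc, map_smul, dg_basis, Finset.prod_insert h]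
    simp only [smul_smul]
    congr 1; ring

lemma dg_an (χ : I → ℂ) (i : I) : b.an i * dg b χ = χ i • (dg b χ * b.an i) := by
  refine b.B.ext fun J => ?_
  simp only [Module.End.mul_apply, LinearMap.smul_apply, dg_basis, map_smul]
  by_cases h : i ∈ J
  · obtain ⟨c, hc⟩ := b.cr_basis i (J.erase i) (Finset.notMem_erase i J)
    have h1 := b.an_basis i (J.erase i) (Finset.notMem_erase i J) c hc
    rw [Finset.insert_erase h] at h1
    rw [h1, map_smul, dg_basis, ← Finset.mul_prod_erase J χ h]
    simp only [smul_smul]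
    congr 1; ring
  · rw [b.an_basis_not_mem i J h]; simp

lemma adj_dg [Fintype I] (χ : I → ℂ) :
    IsAdj b (dg b χ) (dg b fun i => (starRingEnd ℂ) (χ i)) := by
  refine IsAdj.of_basis fun s t => ?_
  rw [dg_basis, dg_basis, ip_smul_left, ip_smul_right, ip_basis, map_prod]
  by_cases h : s = t
  · subst h; simp
  · simp [h]

/-! ### Lifting eigenvectors -/

/-- Lifting eigenvectors through an operator that intertwines a diagonal operator. -/
lemma lift_eigen [Fintype I] (χ : I → ℂ) {κ : ℂ} {T : Module.End ℂ E}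
    (hT : ∀ y, T (dg b χ y) = κ • dg b χ (T y)) (M : Submodule ℂ E)
    (hM : ∀ y ∈ M, dg b χ y ∈ M) {y : E} (hy : y ∈ M) (hTy : T y ≠ 0) {μ : ℂ}
    (hμ : dg b χ (T y) = μ • T y) :
    ∃ z ∈ M, z ≠ 0 ∧ dg b χ z = (κ * μ) • z := by
  classical
  let Λ : Finset ℂ := (Finset.univ.image fun J : Finset I => ∏ i ∈ J, χ i).erase (κ * μ)
  let op : List ℂ → E := fun l => l.foldr (fun c z => dg b χ z - c • z) y
  have h1 : ∀ l : List ℂ, op l ∈ M := by
    intro l
    induction l with
    | nil => exact hy
    | cons c l ih => exact M.sub_mem (hM _ ih) (M.smul_mem _ ih)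
  have h2 : ∀ l : List ℂ, T (op l) = (l.map fun c => κ * μ - c).prod • T y := by
    intro l
    induction l with
    | nil => simp [op]
    | cons c l ih =>
      show T (dg b χ (op l) - c • op l) = _
      rw [map_sub, hT, map_smul, ih, map_smul, hμ, List.map_cons, List.prod_cons]
      simp only [smul_smul, ← sub_smul]
      congr 1; ring
  have h3 : ∀ (l : List ℂ) (J : Finset I), b.B.repr (op l) J =
      (l.map fun c => (∏ i ∈ J, χ i) - c).prod * b.B.repr y J := by
    intro l J
    induction l with
    | nil => simp [op]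
    | cons c l ih =>
      show b.B.repr (dg b χ (op l) - c • op l) J = _
      rw [map_sub, Finsupp.sub_apply, repr_dg, map_smul, Finsupp.smul_apply, ih, List.map_cons,
        List.prod_cons, smul_eq_mul]
      ring
  refine ⟨op Λ.toList, h1 _, ?_, ?_⟩
  · intro h0
    have h4 := h2 Λ.toList
    rw [h0, map_zero] at h4
    rcases smul_eq_zero.mp h4.symm with h5 | h5
    · rw [List.prod_eq_zero_iff] at h5
      obtain ⟨c, hc, hc0⟩ := List.mem_map.mp h5
      rw [Finset.mem_toList] at hc
      have h6 : c ≠ κ * μ := Finset.ne_of_mem_erase hc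
      exact h6 (sub_eq_zero.mp hc0).symm
    · exact hTy h5
  · apply b.B.repr.injective
    ext J
    rw [repr_dg, map_smul, Finsupp.smul_apply, smul_eq_mul, h3]
    by_cases h4 : ∏ i ∈ J, χ i = κ * μ
    · rw [h4]
    · have h5 : (Λ.toList.map fun c => (∏ i ∈ J, χ i) - c).prod = 0 := by
        rw [List.prod_eq_zero_iff]
        refine List.mem_map.mpr ⟨∏ i ∈ J, χ i, ?_, sub_self _⟩
        rw [Finset.mem_toList]
        exact Finset.mem_erase.mpr ⟨h4, Finset.mem_image.mpr ⟨J, Finset.mem_univ _, rfl⟩⟩
      rw [h5]; ring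

end Pool.Agent.Helper60.GTC.Fock
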