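import Pool.Agent.Helper60.GTC.Comm

/-!
# Weights and the extremal vector of a harmonic subspace
-/

set_option autoImplicit false
set_option linter.unusedSectionVars false

namespace Pool.Agent.Helper60.GTC.Fock

open Module

/-- Commuting operators have a common eigenvector in every non-zero stable subspace. -/
lemma exists_joint {E : Type*} [AddCommGroup E] [Module ℂ E] [FiniteDimensional ℂ E]
    {S : Type*} (T : S → Module.End ℂ E) (hT : ∀ s t, T s * T t = T t * T s)
    (A : Finset S) (M : Submodule ℂ E) (hM : M ≠ ⊥) (hst : ∀ s, ∀ x ∈ M, T s x ∈ M) :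
    ∃ N : Submodule ℂ E, N ≤ M ∧ N ≠ ⊥ ∧ (∀ s, ∀ x ∈ N, T s x ∈ N) ∧
      ∀ s ∈ A, ∃ c : ℂ, ∀ x ∈ N, T s x = c • x := by
  classical
  induction A using Finset.induction_on with
  | empty => exact ⟨M, le_rfl, hM, hst, fun s hs => by simp at hs⟩
  | insert s A hs ih =>
    obtain ⟨N, hNM, hN, hNst, hNA⟩ := ih
    have : Nontrivial N := Submodule.nontrivial_iff_ne_bot.mpr hN
    obtain ⟨c, hc⟩ := Module.End.exists_eigenvalue ((T s).restrict (hNst s))
    obtain ⟨v, hv⟩ := hc.exists_hasEigenvector
    refine ⟨N ⊓ LinearMap.ker (T s - c • LinearMap.id), inf_le_left.trans hNM, ?_, ?_, ?_⟩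
    · rw [Submodule.ne_bot_iff]
      refine ⟨v, ⟨v.2, ?_⟩, ?_⟩
      · have h1 := congrArg Subtype.val hv.apply_eq_smul
        simp only [LinearMap.coe_restrict_apply, Submodule.coe_smul] at h1
        simp [LinearMap.mem_ker, h1]
      · intro h
        exact hv.2 (Subtype.ext h)
    · intro t x hx
      refine ⟨hNst t x hx.1, ?_⟩
      have h1 : T s x = c • x := by
        have := hx.2
        rw [SetLike.mem_coe, LinearMap.mem_ker, LinearMap.sub_apply, sub_eq_zero] at this
        simpa using this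
      have h2 := congrArg (fun U : Module.End ℂ E => U x) (hT s t)
      simp only [Module.End.mul_apply] at h2
      rw [SetLike.mem_coe, LinearMap.mem_ker, LinearMap.sub_apply, h2, h1]
      simp
    · intro t ht
      rcases Finset.mem_insert.mp ht with rfl | ht
      · refine ⟨c, fun x hx => ?_⟩
        have := hx.2
        rw [SetLike.mem_coe, LinearMap.mem_ker, LinearMap.sub_apply, sub_eq_zero] at this
        simpa using this
      · obtain ⟨d, hd⟩ := hNA t ht
        exact ⟨d, fun x hx => hd x hx.1⟩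

variable {I : Type*} [DecidableEq I] {E : Type*} [AddCommGroup E] [Module ℂ E] (b : Fock I E)
  {n : ℕ} {S : Type*} [DecidableEq S] (idx : Fin n × (S ⊕ S) ≃ I)

lemma cm_A_A (s t u v : S) : cm (b.Am idx s t) (b.Am idx u v) =
    (if t = u then b.Am idx s v else 0) - (if s = v then b.Am idx u t else 0) := by
  have h1 : cm (b.Am idx s t) (b.Am idx u v) = ∑ a, (cm (b.Am idx s t)
      (b.ce idx a u * b.ae idx a v - b.cf idx a v * b.af idx a u)) := by
    conv_lhs => rw [Am.eq_def b idx u v]
    rw [cm_sum_right]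
  have h2 : (if t = u then b.Am idx s v else 0) = ∑ a, (if t = u then
      (b.ce idx a s * b.ae idx a v - b.cf idx a v * b.af idx a s) else 0) := by
    unfold Am; split_ifs <;> simp
  have h3 : (if s = v then b.Am idx u t else 0) = ∑ a, (if s = v then
      (b.ce idx a u * b.ae idx a t - b.cf idx a t * b.af idx a u) else 0) := by
    unfold Am; split_ifs <;> simp
  rw [h1, h2, h3, ← Finset.sum_sub_distrib]
  refine Finset.sum_congr rfl fun a _ => ?_
  simp only [cm_sub_right, cm_mul_right, cm_A_ce, cm_A_cf, cm_A_ae, cm_A_af]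
  split_ifs <;> noncomm_ring

lemma cm_A_R (s t u v : S) : cm (b.Am idx s t) (b.R idx u v) =
    (if t = u then b.R idx s v else 0) + (if t = v then b.R idx u s else 0) := by
  have h1 : cm (b.Am idx s t) (b.R idx u v) = ∑ a, (cm (b.Am idx s t)
      (b.ce idx a u * b.af idx a v)) := by
    conv_lhs => rw [R.eq_def b idx u v]
    rw [cm_sum_right]
  have h2 : (if t = u then b.R idx s v else 0) = ∑ a, (if t = u then
      (b.ce idx a s * b.af idx a v) else 0) := by
    unfold R; split_ifs <;> simp
  have h3 : (if t = v then b.R idx u s else 0) = ∑ a, (if t = v then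
      (b.ce idx a u * b.af idx a s) else 0) := by
    unfold R; split_ifs <;> simp
  rw [h1, h2, h3, ← Finset.sum_add_distrib]
  refine Finset.sum_congr rfl fun a _ => ?_
  simp only [cm_mul_right, cm_A_ce, cm_A_af]
  split_ifs <;> noncomm_ring

lemma A_comm (u v : S) : b.Am idx u u * b.Am idx v v = b.Am idx v v * b.Am idx u u := by
  have h := cm_A_A b idx u u v v
  unfold cm at h
  rw [← sub_eq_zero, h]
  by_cases h : u = v <;> simp [h]

/-- `x` has weight `lam` -/
def IsWt (x : E) (lam : S → ℤ) : Prop := ∀ u, b.Am idx u u x = (lam u : ℂ) • x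

lemma cm_apply (X Y : Module.End ℂ E) (x : E) : X (Y x) = Y (X x) + cm X Y x := by
  unfold cm; simp [Module.End.mul_apply]

lemma cm_H_R (u s t : S) : cm (b.Am idx u u) (b.R idx s t) =
    (((if u = s then 1 else 0) + (if u = t then 1 else 0) : ℤ) : ℂ) • b.R idx s t := by
  rw [cm_A_R]
  by_cases h : u = s
  · subst h
    by_cases h' : u = t
    · subst h'; simp; rw [← two_smul ℂ]; try norm_num
    · simp [h']
  · by_cases h' : u = t
    · subst h'; simp [h]
    · simp [h, h']

lemma cm_H_A (u s t : S) : cm (b.Am idx u u) (b.Am idx s t) =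
    (((if u = s then 1 else 0) - (if u = t then 1 else 0) : ℤ) : ℂ) • b.Am idx s t := by
  rw [cm_A_A]
  by_cases h : u = s
  · subst h
    by_cases h' : u = t
    · subst h'; simp
    · simp [h']
  · by_cases h' : u = t
    · subst h'; simp [h]
    · simp [h, h']

variable {b idx} in
lemma IsWt.Ep {x : E} {lam : S → ℤ} (h : IsWt b idx x lam) (s t : S) :
    IsWt b idx (b.Ep idx s t x) (fun u => lam u + (if u = s then 1 else 0) +
      (if u = t then 1 else 0)) := by
  intro u
  have h1 : cm (b.Am idx u u) (b.Ep idx s t) =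
      (((if u = s then 1 else 0) + (if u = t then 1 else 0) : ℤ) : ℂ) • b.Ep idx s t := by
    unfold Fock.Ep
    rw [cm_add_right, cm_H_R, cm_H_R, smul_add, add_comm (if u = t then (1 : ℤ) else 0)]
  rw [cm_apply, h u, h1, map_smul, LinearMap.smul_apply, ← add_smul]
  push_cast
  congr 1
  ring

variable {b idx} in
lemma IsWt.Am {x : E} {lam : S → ℤ} (h : IsWt b idx x lam) (s t : S) :
    IsWt b idx (b.Am idx s t x) (fun u => lam u + (if u = s then 1 else 0) -
      (if u = t then 1 else 0)) := by
  intro u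
  rw [cm_apply, h u, cm_H_A, map_smul, LinearMap.smul_apply, ← add_smul]
  push_cast
  congr 1
  ring

/-- number operators in coordinates -/
lemma repr_num (i : I) (x : E) (J : Finset I) :
    b.B.repr (b.cr i (b.an i x)) J = if i ∈ J then b.B.repr x J else 0 := by
  have h : (b.B.coord J).comp (b.cr i * b.an i) =
      (if i ∈ J then (1 : ℂ) else 0) • b.B.coord J := by
    refine b.B.ext fun K => ?_
    simp only [LinearMap.comp_apply, Module.End.mul_apply, num_basis, LinearMap.smul_apply,
      Basis.coord_apply, smul_eq_mul]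
    by_cases hK : K = J
    · subst hK; split_ifs <;> simp
    · by_cases h1 : i ∈ K <;> by_cases h2 : i ∈ J <;> simp [h1, h2, hK]
  have h2 := LinearMap.congr_fun h x
  simp only [LinearMap.comp_apply, Module.End.mul_apply, LinearMap.smul_apply,
      Basis.coord_apply, smul_eq_mul] at h2
  rw [h2]; split_ifs <;> simp

/-- the weight of a monomial -/
def wtJ (J : Finset I) (u : S) : ℤ :=
  ((Finset.univ.filter fun a : Fin n => idx (a, Sum.inl u) ∈ J).card : ℤ) -
    ((Finset.univ.filter fun a : Fin n => idx (a, Sum.inr u) ∈ J).card : ℤ)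

lemma repr_H (u : S) (x : E) (J : Finset I) :
    b.B.repr (b.Am idx u u x) J = (wtJ idx J u : ℂ) * b.B.repr x J := by
  unfold Am ce ae cf af
  simp only [LinearMap.sum_apply, LinearMap.sub_apply, Module.End.mul_apply, map_sum, map_sub,
    Finsupp.coe_finsetSum, Finset.sum_apply, Finsupp.coe_sub, Pi.sub_apply, repr_num,
    Finset.sum_sub_distrib]
  rw [← Finset.sum_filter, ← Finset.sum_filter, Finset.sum_const, Finset.sum_const]
  unfold wtJ
  push_cast
  simp only [nsmul_eq_mul]
  ring

variable {b idx} in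
lemma IsWt.wtJ {x : E} {lam : S → ℤ} (h : IsWt b idx x lam) {J : Finset I}
    (hJ : b.B.repr x J ≠ 0) (u : S) : wtJ idx J u = lam u := by
  have h1 := repr_H b idx u x J
  rw [h u, map_smul, Finsupp.smul_apply, smul_eq_mul] at h1
  have h2 := mul_right_cancel₀ hJ h1
  exact_mod_cast h2.symm

lemma exists_repr_ne {x : E} (hx : x ≠ 0) : ∃ J, b.B.repr x J ≠ 0 := by
  by_contra h
  push Not at h
  exact hx (b.B.repr.injective (by ext J; simp [h J]))

variable [Fintype I]

/-- existence of weight vectors -/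
lemma exists_wt [Fintype S] (M : Submodule ℂ E) (hM : M ≠ ⊥)
    (hst : ∀ s, ∀ x ∈ M, b.Am idx s s x ∈ M) :
    ∃ x ∈ M, x ≠ 0 ∧ ∃ lam : S → ℤ, IsWt b idx x lam := by
  have : FiniteDimensional ℂ E := Module.Basis.finiteDimensional_of_finite b.B
  obtain ⟨N, hNM, hN, -, hN2⟩ := exists_joint (fun s => b.Am idx s s)
    (fun s t => A_comm b idx s t) Finset.univ M hM hst
  obtain ⟨x, hxN, hx⟩ := (Submodule.ne_bot_iff N).mp hN
  refine ⟨x, hNM hxN, hx, ?_⟩
  obtain ⟨J, hJ⟩ := exists_repr_ne b hx
  refine ⟨wtJ idx J, fun u => ?_⟩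
  obtain ⟨c, hc⟩ := hN2 u (Finset.mem_univ u)
  have h1 := repr_H b idx u x J
  rw [hc x hxN, map_smul, Finsupp.smul_apply, smul_eq_mul] at h1
  rw [hc x hxN, mul_right_cancel₀ hJ h1]

lemma finite_wt (M : Submodule ℂ E) :
    {lam : S → ℤ | ∃ x ∈ M, x ≠ 0 ∧ IsWt b idx x lam}.Finite := by
  refine (Set.finite_range (fun J : Finset I => wtJ idx J)).subset ?_
  rintro lam ⟨x, -, hx, h⟩
  obtain ⟨J, hJ⟩ := exists_repr_ne b hx
  exact ⟨J, funext fun u => h.wtJ hJ u⟩

lemma ne_zero_wt_unique {x : E} (hx : x ≠ 0) {lam mu : S → ℤ} (h : IsWt b idx x lam)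
    (k : IsWt b idx x mu) : lam = mu := by
  obtain ⟨J, hJ⟩ := exists_repr_ne b hx
  exact funext fun u => (h.wtJ hJ u).symm.trans (k.wtJ hJ u)

end Pool.Agent.Helper60.GTC.Fock
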